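import Mathlib

/-! Mapping class groups of the plane minus a Cantor set: definitions for MP_ac6992_gt. -/

set_option autoImplicit false

namespace Pool.Agent.U596.QT

open Set Topology

/-- `C` is a Cantor set of the plane: not empty, compact, without isolated points, totally disconnected. -/
def IsCantorSet (C : Set (ℝ × ℝ)) : Prop :=
  C.Nonempty ∧ IsCompact C ∧ Perfect C ∧ IsTotallyDisconnected C

/-- The surface: the plane minus `C`. -/
abbrev Sur (C : Set (ℝ × ℝ)) : Type := {z : ℝ × ℝ // z ∉ C}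

/-- the topology of the surface: the induced topology -/
instance (priority := 10000) surTop (C : Set (ℝ × ℝ)) : TopologicalSpace (Sur C) := instTopologicalSpaceSubtype

/-- `f` is isotopic to the identity: there is a level preserving homeomorphism of `[0, 1] × S` which is the
identity at the level `0` and `f` at the level `1`. -/
def IsoId (C : Set (ℝ × ℝ)) (f : Sur C ≃ₜ Sur C) : Prop :=
  ∃ Φ : (unitInterval × Sur C) ≃ₜ (unitInterval × Sur C), (∀ p, (Φ p).1 = p.1) ∧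
    (∀ z, (Φ (0, z)).2 = z) ∧ ∀ z, (Φ (1, z)).2 = f z

/-- `f` preserves the orientation near every point of `S`: on a closed ball around the point, `f` is isotopic to
the inclusion, through embeddings of the ball in the plane. -/
def OrPres (C : Set (ℝ × ℝ)) (f : Sur C ≃ₜ Sur C) : Prop :=
  ∀ z : Sur C, ∃ r : ℝ, 0 < r ∧ Metric.closedBall z.1 r ⊆ Cᶜ ∧ ∃ H : ℝ → ℝ × ℝ → ℝ × ℝ,
    ContinuousOn (fun p : ℝ × (ℝ × ℝ) => H p.1 p.2) (Icc 0 1 ×ˢ Metric.closedBall z.1 r) ∧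
    (∀ x ∈ Metric.closedBall z.1 r, H 0 x = x) ∧
    (∀ x : Sur C, x.1 ∈ Metric.closedBall z.1 r → H 1 x.1 = (f x).1) ∧
    ∀ t ∈ Icc (0 : ℝ) 1, InjOn (H t) (Metric.closedBall z.1 r)

variable {C : Set (ℝ × ℝ)}

theorem isoId_one : IsoId C 1 :=
  ⟨Homeomorph.refl _, fun _ => rfl, fun _ => rfl, fun _ => rfl⟩

theorem isoId_mul {f g : Sur C ≃ₜ Sur C} (hf : IsoId C f) (hg : IsoId C g) : IsoId C (f * g) := by
  obtain ⟨Φ, h1, h2, h3⟩ := hf
  obtain ⟨Ψ, k1, k2, k3⟩ := hg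
  have e0 : ∀ (Θ : (unitInterval × Sur C) ≃ₜ (unitInterval × Sur C)), (∀ p, (Θ p).1 = p.1) →
      ∀ t z, Θ (t, z) = (t, (Θ (t, z)).2) := fun Θ h t z => Prod.ext (h _) rfl
  refine ⟨Ψ.trans Φ, fun p => ?_, fun z => ?_, fun z => ?_⟩
  · show (Φ (Ψ p)).1 = p.1
    rw [h1, k1]
  · show (Φ (Ψ (0, z))).2 = z
    rw [e0 Ψ k1, k2, h2]
  · show (Φ (Ψ (1, z))).2 = f (g z)
    rw [e0 Ψ k1, k3, h3]

theorem isoId_inv {f : Sur C ≃ₜ Sur C} (hf : IsoId C f) : IsoId C f⁻¹ := by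
  obtain ⟨Φ, h1, h2, h3⟩ := hf
  have e0 : ∀ t z, Φ (t, z) = (t, (Φ (t, z)).2) := fun t z => Prod.ext (h1 _) rfl
  refine ⟨Φ.symm, fun p => ?_, fun z => ?_, fun z => ?_⟩
  · have := h1 (Φ.symm p)
    rw [Φ.apply_symm_apply] at this
    exact this.symm
  · have : Φ (0, z) = (0, z) := by rw [e0, h2]
    rw [Φ.symm_apply_eq.2 this.symm]
  · have h : (f⁻¹ : Sur C ≃ₜ Sur C) = f.symm := rfl
    have : Φ (1, f.symm z) = (1, z) := by rw [e0, h3, f.apply_symm_apply]
    rw [Φ.symm_apply_eq.2 this.symm, h]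

theorem isoId_conj {f : Sur C ≃ₜ Sur C} (hf : IsoId C f) (g : Sur C ≃ₜ Sur C) : IsoId C (g * f * g⁻¹) := by
  obtain ⟨Φ, h1, h2, h3⟩ := hf
  have e0 : ∀ t z, Φ (t, z) = (t, (Φ (t, z)).2) := fun t z => Prod.ext (h1 _) rfl
  have hg : (g⁻¹ : Sur C ≃ₜ Sur C) = g.symm := rfl
  let G : (unitInterval × Sur C) ≃ₜ (unitInterval × Sur C) := (Homeomorph.refl _).prodCongr g
  have hG : ∀ t z, G (t, z) = (t, g z) := fun _ _ => rfl
  have hG' : ∀ t z, G.symm (t, z) = (t, g.symm z) := fun _ _ => rfl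
  refine ⟨(G.symm.trans Φ).trans G, fun p => ?_, fun z => ?_, fun z => ?_⟩
  · obtain ⟨t, z⟩ := p
    show (G (Φ (G.symm (t, z)))).1 = t
    rw [hG', e0, hG]
  · show (G (Φ (G.symm (0, z)))).2 = z
    rw [hG', e0, hG, h2, g.apply_symm_apply]
  · show (G (Φ (G.symm (1, z)))).2 = g (f (g⁻¹ z))
    rw [hG', e0, hG, h3, hg]

/-- the group of the homeomorphisms of `S` isotopic to the identity -/
def iso0 (C : Set (ℝ × ℝ)) : Subgroup (Sur C ≃ₜ Sur C) where
  carrier := {f | IsoId C f}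
  one_mem' := isoId_one
  mul_mem' := isoId_mul
  inv_mem' := isoId_inv

instance iso0_normal (C : Set (ℝ × ℝ)) : (iso0 C).Normal := ⟨fun _ hf g => isoId_conj hf g⟩

theorem orPres_one (hC : IsClosed C) : OrPres C 1 := by
  intro z
  obtain ⟨r, hr, h⟩ := Metric.isOpen_iff.1 hC.isOpen_compl z.1 z.2
  refine ⟨r / 2, by positivity, (Metric.closedBall_subset_ball (by linarith)).trans h, fun _ x => x, ?_, fun _ _ => rfl,
    fun _ _ => rfl, fun _ _ => fun _ _ _ _ h => h⟩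
  exact continuous_snd.continuousOn

theorem near {f : Sur C ≃ₜ Sur C} (hC : IsClosed C) (z : Sur C) {ε : ℝ} (hε : 0 < ε) :
    ∃ r : ℝ, 0 < r ∧ Metric.closedBall z.1 r ⊆ Cᶜ ∧
      ∀ x : Sur C, x.1 ∈ Metric.closedBall z.1 r → (f x).1 ∈ Metric.closedBall (f z).1 ε := by
  obtain ⟨r, hr, h⟩ := Metric.isOpen_iff.1 hC.isOpen_compl z.1 z.2
  obtain ⟨δ, hδ, h'⟩ := Metric.continuousAt_iff.1 (f.continuous.continuousAt (x := z)) ε hε
  refine ⟨min (r / 2) (δ / 2), by positivity, (Metric.closedBall_subset_ball ?_).trans h, fun x hx => ?_⟩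
  · exact lt_of_le_of_lt (min_le_left _ _) (by linarith)
  · have h1 : dist x z < δ := by
      have : dist x.1 z.1 ≤ min (r / 2) (δ / 2) := hx
      have h2 : dist x z = dist x.1 z.1 := rfl
      rw [h2]
      exact lt_of_le_of_lt (this.trans (min_le_right _ _)) (by linarith)
    exact (h' h1).le

/-- `f` on the plane -/
noncomputable def exP (f : Sur C ≃ₜ Sur C) (y : ℝ × ℝ) : ℝ × ℝ :=
  open Classical in if h : y ∉ C then (f ⟨y, h⟩).1 else y

theorem exP_eq (f : Sur C ≃ₜ Sur C) (x : Sur C) : exP f x.1 = (f x).1 := by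
  unfold exP
  rw [dif_pos x.2]

theorem exP_cont (f : Sur C ≃ₜ Sur C) : ContinuousOn (exP f) Cᶜ := by
  rw [continuousOn_iff_continuous_restrict]
  have : (Cᶜ).domRestrict (exP f) = fun x : (Cᶜ : Set (ℝ × ℝ)) => (f ⟨x.1, x.2⟩).1 := by
    funext x
    exact exP_eq f ⟨x.1, x.2⟩
  rw [this]
  exact continuous_subtype_val.comp (f.continuous.comp (by fun_prop))

theorem orPres_mul {f g : Sur C ≃ₜ Sur C} (hC : IsClosed C) (hf : OrPres C f) (hg : OrPres C g) :
    OrPres C (f * g) := by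
  intro z
  obtain ⟨r1, hr1, hb1, H1, c1, z1, e1, i1⟩ := hg z
  obtain ⟨r2, hr2, hb2, H2, c2, z2, e2, i2⟩ := hf (g z)
  obtain ⟨r, hr, hb, hn⟩ := near (f := g) hC z hr2
  have hsub : Metric.closedBall z.1 (min r r1) ⊆ Metric.closedBall z.1 r1 :=
    Metric.closedBall_subset_closedBall (min_le_right _ _)
  have hsub' : Metric.closedBall z.1 (min r r1) ⊆ Metric.closedBall z.1 r :=
    Metric.closedBall_subset_closedBall (min_le_left _ _)
  have hone : ∀ x ∈ Metric.closedBall z.1 (min r r1), H1 1 x ∈ Metric.closedBall (g z).1 r2 := by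
    intro x hx
    have h1 := e1 ⟨x, hb1 (hsub hx)⟩ (hsub hx)
    rw [h1]
    exact hn _ (hsub' hx)
  have hinj1 : InjOn (H1 1) (Metric.closedBall z.1 (min r r1)) :=
    (i1 1 ⟨zero_le_one, le_refl _⟩).mono hsub
  refine ⟨min r r1, lt_min hr hr1, hsub'.trans hb, fun t x => H2 (max (2 * t - 1) 0) (H1 1 x) - H1 1 x + H1 (min (2 * t) 1) x,
    ?_, ?_, ?_, ?_⟩
  · have a1 : ContinuousOn (fun p : ℝ × (ℝ × ℝ) => H1 1 p.2) (Icc 0 1 ×ˢ Metric.closedBall z.1 (min r r1)) := by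
      refine c1.comp (f := fun p : ℝ × (ℝ × ℝ) => ((1 : ℝ), p.2)) (by fun_prop) ?_
      rintro ⟨t, x⟩ ⟨ht, hx⟩
      exact ⟨⟨zero_le_one, le_refl _⟩, hsub hx⟩
    have a2 : ContinuousOn (fun p : ℝ × (ℝ × ℝ) => H1 (min (2 * p.1) 1) p.2)
        (Icc 0 1 ×ˢ Metric.closedBall z.1 (min r r1)) := by
      refine c1.comp (f := fun p : ℝ × (ℝ × ℝ) => (min (2 * p.1) 1, p.2)) (by fun_prop) ?_
      rintro ⟨t, x⟩ ⟨ht, hx⟩
      exact ⟨⟨le_min (by have := ht.1; simp only at this ⊢; linarith) zero_le_one, min_le_right _ _⟩, hsub hx⟩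
    have a3 : ContinuousOn (fun p : ℝ × (ℝ × ℝ) => H2 (max (2 * p.1 - 1) 0) (H1 1 p.2))
        (Icc 0 1 ×ˢ Metric.closedBall z.1 (min r r1)) := by
      refine c2.comp (f := fun p : ℝ × (ℝ × ℝ) => (max (2 * p.1 - 1) 0, H1 1 p.2)) ?_ ?_
      · exact ContinuousOn.prodMk (by fun_prop) a1
      · rintro ⟨t, x⟩ ⟨ht, hx⟩
        exact ⟨⟨le_max_right _ _, max_le (by have := ht.2; simp only at this ⊢; linarith) zero_le_one⟩, hone x hx⟩
    exact (a3.sub a1).add a2
  · intro x hx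
    have : max (2 * (0 : ℝ) - 1) 0 = 0 := by norm_num
    have h' : min (2 * (0 : ℝ)) 1 = 0 := by norm_num
    simp only [this, h']
    rw [z2 _ (hone x hx), z1 x (hsub hx)]
    abel
  · intro x hx
    have : max (2 * (1 : ℝ) - 1) 0 = 1 := by norm_num
    have h' : min (2 * (1 : ℝ)) 1 = 1 := by norm_num
    simp only [this, h']
    have h1 := e1 x (hsub hx)
    rw [h1, e2 (g x) (hn x (hsub' hx))]
    show (f (g x)).1 - _ + _ = (f (g x)).1
    abel
  · intro t ht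
    rcases le_total t (1 / 2) with h | h
    · have h1 : max (2 * t - 1) 0 = 0 := max_eq_right (by linarith)
      have h2 : min (2 * t) 1 = 2 * t := min_eq_left (by linarith)
      intro x hx y hy hxy
      simp only [h1, h2] at hxy
      rw [z2 _ (hone x hx), z2 _ (hone y hy)] at hxy
      simp only [sub_self, zero_add] at hxy
      exact i1 (2 * t) ⟨by linarith [ht.1], by linarith⟩ (hsub hx) (hsub hy) hxy
    · have h1 : max (2 * t - 1) 0 = 2 * t - 1 := max_eq_left (by linarith)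
      have h2 : min (2 * t) 1 = 1 := min_eq_right (by linarith)
      intro x hx y hy hxy
      simp only [h1, h2, sub_add_cancel] at hxy
      exact hinj1 hx hy (i2 (2 * t - 1) ⟨by linarith, by linarith [ht.2]⟩ (hone x hx) (hone y hy) hxy)

theorem orPres_inv {f : Sur C ≃ₜ Sur C} (hC : IsClosed C) (hf : OrPres C f) : OrPres C f⁻¹ := by
  intro z
  have hinv : (f⁻¹ : Sur C ≃ₜ Sur C) = f.symm := rfl
  obtain ⟨r1, hr1, hb1, H1, c1, z1, e1, i1⟩ := hf (f.symm z)
  obtain ⟨r, hr, hb, hn⟩ := near (f := f.symm) hC z hr1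
  have hin : ∀ y ∈ Metric.closedBall z.1 r, exP f.symm y ∈ Metric.closedBall (f.symm z).1 r1 := by
    intro y hy
    rw [exP_eq f.symm ⟨y, hb hy⟩]
    exact hn ⟨y, hb hy⟩ hy
  refine ⟨r, hr, hb, fun t y => H1 (1 - t) (exP f.symm y), ?_, ?_, ?_, ?_⟩
  · refine c1.comp (f := fun p : ℝ × (ℝ × ℝ) => (1 - p.1, exP f.symm p.2)) ?_ ?_
    · refine ContinuousOn.prodMk (by fun_prop) ?_
      exact ((exP_cont f.symm).mono hb).comp continuous_snd.continuousOn (fun p hp => hp.2)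
    · rintro ⟨t, x⟩ ⟨ht, hx⟩
      exact ⟨⟨by have := ht.2; simp only at this ⊢; linarith, by have := ht.1; simp only at this ⊢; linarith⟩, hin x hx⟩
  · intro y hy
    simp only [sub_zero]
    rw [exP_eq f.symm ⟨y, hb hy⟩, e1 (f.symm ⟨y, hb hy⟩) (hn ⟨y, hb hy⟩ hy), f.apply_symm_apply]
  · intro x hx
    simp only [sub_self]
    rw [exP_eq f.symm x, z1 _ (hn x hx), hinv]
  · intro t ht x hx y hy hxy
    have h1 := i1 (1 - t) ⟨by linarith [ht.2], by linarith [ht.1]⟩ (hin x hx) (hin y hy) hxy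
    rw [exP_eq f.symm ⟨x, hb hx⟩, exP_eq f.symm ⟨y, hb hy⟩] at h1
    have h2 := f.symm.injective (Subtype.ext h1)
    exact congrArg Subtype.val h2

/-- the group of the orientation preserving homeomorphisms of `S` -/
def homeoPlus (C : Set (ℝ × ℝ)) (hC : IsClosed C) : Subgroup (Sur C ≃ₜ Sur C) where
  carrier := {f | OrPres C f}
  one_mem' := orPres_one hC
  mul_mem' := orPres_mul hC
  inv_mem' := orPres_inv hC

/-- the mapping class group of the plane minus `C` -/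
abbrev MCG (C : Set (ℝ × ℝ)) (hC : IsClosed C) : Type :=
  homeoPlus C hC ⧸ (iso0 C).subgroupOf (homeoPlus C hC)

/-- the group `G` is amenable: there is a left invariant finitely additive probability measure on its subsets -/
def Amenable (G : Type) [Group G] : Prop :=
  ∃ μ : Set G → ℝ, (∀ A, 0 ≤ μ A) ∧ μ univ = 1 ∧ (∀ A B, Disjoint A B → μ (A ∪ B) = μ A + μ B) ∧
    ∀ (g : G) (A : Set G), μ ((fun h => g * h) '' A) = μ A

/-- the vector space `Q(G)` of the homogeneous quasimorphisms of `G` -/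
def Quasi (G : Type) [Group G] : Submodule ℝ (G → ℝ) where
  carrier := {φ | (∃ D : ℝ, ∀ g h, |φ (g * h) - φ g - φ h| ≤ D) ∧ ∀ (g : G) (n : ℤ), φ (g ^ n) = n * φ g}
  zero_mem' := ⟨⟨0, fun g h => by simp⟩, fun g n => by simp⟩
  add_mem' := by
    rintro φ ψ ⟨⟨D, hD⟩, h1⟩ ⟨⟨E, hE⟩, h2⟩
    refine ⟨⟨D + E, fun g h => ?_⟩, fun g n => ?_⟩
    · have : (φ + ψ) (g * h) - (φ + ψ) g - (φ + ψ) h = (φ (g * h) - φ g - φ h) + (ψ (g * h) - ψ g - ψ h) := by
        simp only [Pi.add_apply]; ring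
      rw [this]
      exact (abs_add_le _ _).trans (add_le_add (hD g h) (hE g h))
    · simp only [Pi.add_apply, h1, h2]; ring
  smul_mem' := by
    rintro c φ ⟨⟨D, hD⟩, h1⟩
    refine ⟨⟨|c| * D, fun g h => ?_⟩, fun g n => ?_⟩
    · have : (c • φ) (g * h) - (c • φ) g - (c • φ) h = c * (φ (g * h) - φ g - φ h) := by
        simp only [Pi.smul_apply, smul_eq_mul]; ring
      rw [this, abs_mul]
      exact mul_le_mul_of_nonneg_left (hD g h) (abs_nonneg _)
    · simp only [Pi.smul_apply, smul_eq_mul, h1]; ring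

/-- the vector space `Hom(G, ℝ)` -/
def Homs (G : Type) [Group G] : Submodule ℝ (G → ℝ) where
  carrier := {φ | ∀ g h, φ (g * h) = φ g + φ h}
  zero_mem' := fun g h => by simp
  add_mem' := by
    intro φ ψ h1 h2 g h
    simp only [Pi.add_apply]
    rw [h1, h2]; ring
  smul_mem' := by
    intro c φ h1 g h
    simp only [Pi.smul_apply, smul_eq_mul]
    rw [h1]; ring

/-- `Q(G) / Hom(G, ℝ)` -/
abbrev QTilde (G : Type) [Group G] : Type := Quasi G ⧸ (Homs G).submoduleOf (Quasi G)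

end Pool.Agent.U596.QT
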