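import Mathlib
import Pool.Agent.U596.QT.Defs

/-! Project QT (helper596): MP_ac6992_gt, full negative answer. Plan and statements of the packages.

The plane minus the Cantor set `line C0`, `C0 = cap (per (cap ZZ))`, where `ZZ ⊆ ℝ` is a closed `2`-periodic set.
`Stab ZZ` is not amenable (ping-pong on `ZZ`), it acts on `per (cap ZZ)` with bounded support, and the group `W` of
the elements of `Stab (per (cap ZZ))` which are a translation near infinity has no homogeneous quasimorphisms except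
homomorphisms. -/

set_option autoImplicit false

namespace Pool.Agent.U596.QT

open Set Topology

/-- the union of the intervals `[2k + 1/4, 2k + 3/4]` -/
def Z0 : Set ℝ := {x | ∃ k : ℤ, 2 * (k : ℝ) + 1 / 4 ≤ x ∧ x ≤ 2 * (k : ℝ) + 3 / 4}

/-- the expanding map -/
def fZ (x : ℝ) : ℝ := 5 * x - 1

/-- the closed `2`-periodic set of level one -/
def ZZ : Set ℝ := {x | ∀ n : ℕ, fZ^[n] x ∈ Z0}

/-- no isolated points -/
def NoIso (K : Set ℝ) : Prop := ∀ x ∈ K, ∀ ε : ℝ, 0 < ε → ∃ y ∈ K, y ≠ x ∧ |y - x| < ε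

/-- contains no interval -/
def Thin (K : Set ℝ) : Prop := ∀ a b : ℝ, a < b → ∃ x, a < x ∧ x < b ∧ x ∉ K

/-- unbounded on both sides -/
def Unb (K : Set ℝ) : Prop := (∀ L : ℝ, ∃ x ∈ K, L < x) ∧ ∀ L : ℝ, ∃ x ∈ K, x < L

/-- the increasing homeomorphisms of the line which preserve `K` -/
def Stab (K : Set ℝ) : Subgroup (ℝ ≃o ℝ) where
  carrier := {g | ∀ x, g x ∈ K ↔ x ∈ K}
  one_mem' := fun _ => Iff.rfl
  mul_mem' := fun {a b} ha hb x => (ha (b x)).trans (hb x)
  inv_mem' := fun {a} ha x => by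
    have h := ha ((a⁻¹ : ℝ ≃o ℝ) x)
    have h2 : a ((a⁻¹ : ℝ ≃o ℝ) x) = x := a.apply_symm_apply x
    rw [h2] at h
    exact h.symm

/-- the increasing homeomorphism of the line onto `(-1, 1)` -/
noncomputable def e (x : ℝ) : ℝ := (orderIsoIooNegOneOne ℝ x : ℝ)

/-- the compactification of `K` in `[-1, 1]` -/
def cap (K : Set ℝ) : Set ℝ := {x | x = 1 ∨ x = -1 ∨ ∃ z ∈ K, x = e z}

/-- the union of the translates of `K` by `2ℤ` -/
def per (K : Set ℝ) : Set ℝ := {x | ∃ n : ℤ, x - 2 * n ∈ K}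

/-- `K × {0}` -/
def line (K : Set ℝ) : Set (ℝ × ℝ) := {z | z.1 ∈ K ∧ z.2 = 0}

theorem line_closed {K : Set ℝ} (hK : IsClosed K) : IsClosed (line K) :=
  (hK.preimage continuous_fst).inter (isClosed_singleton.preimage continuous_snd)

theorem e_eq (x : ℝ) : e x = (orderIsoIooNegOneOne ℝ x : ℝ) := rfl

theorem e_strictMono : StrictMono e := fun x y h => (orderIsoIooNegOneOne ℝ).strictMono h

theorem e_lt (x : ℝ) : e x < 1 := (orderIsoIooNegOneOne ℝ x).2.2

theorem lt_e (x : ℝ) : -1 < e x := (orderIsoIooNegOneOne ℝ x).2.1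

theorem e_abs (x : ℝ) : |e x| < 1 := abs_lt.2 ⟨lt_e x, e_lt x⟩

theorem e_surj {y : ℝ} (h : |y| < 1) : ∃ x, e x = y :=
  ⟨(orderIsoIooNegOneOne ℝ).symm ⟨y, abs_lt.1 h⟩, by rw [e_eq, OrderIso.apply_symm_apply]⟩

theorem e_cont : Continuous e := continuous_subtype_val.comp (orderIsoIooNegOneOne ℝ).continuous

/-- **Package NA** (20-30 min). Non-amenability from a ping-pong action.
Proof. Let `μ` be the mean of `H` and `K = Θ.range`. Fix `x0 : X`. For `h : H` let `s h` be a chosen representative of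
the right coset `K h` (for instance `Quotient.out` of `Quotient.mk (QuotientGroup.rightRel K) h`), so `s (k h) = s h`
for `k ∈ K`, and `h (s h)⁻¹ ∈ K`; choose `d h : D` with `Θ (d h) = h (s h)⁻¹` and put `F h = d h • x0`. Then
`F (Θ g * h) = g • F h`: both `d (Θ g * h)` and `g * d h` have the image `Θ g * h * (s h)⁻¹`, hence differ by an
element of the kernel, which acts trivially. Put `ν A = μ (F ⁻¹' A)`; `ν {x | g • x ∈ A} = ν A` because
`{h | F (Θ g * h) ∈ A}` is the image of `F ⁻¹' A` under the left multiplication by `(Θ g)⁻¹`. With `g = c`: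
`ν Uᶜ = ν U`, so `ν U = 1/2`. The sets `U`, `{x | r • x ∈ U}`, `{x | r • r • x ∈ U}` are pairwise disjoint of the same
mean, so `3 * ν U ≤ 1`. Contradiction. -/
def S_NA : Prop := ∀ (D H X : Type) [Group D] [Group H] [MulAction D X] [Nonempty X] (Θ : D →* H)
  (_ : ∀ g, Θ g = 1 → ∀ x : X, g • x = x) (c r : D) (U : Set X)
  (_ : ∀ x, c • x ∈ U ↔ x ∉ U) (_ : ∀ x ∈ U, r • x ∉ U) (_ : ∀ x ∈ U, r • r • x ∉ U), ¬ Amenable H

/-- **Package QM** (25-35 min). Proof. Let `φ ∈ Quasi G` with defect `D`. (1) `φ (g * h * g⁻¹) = φ h`: the difference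
for `h ^ n` is bounded by `2 * D + ...` and equals `n` times the difference. (2) `φ (g * h) = φ g + φ h` if `g`, `h`
commute: `(g * h) ^ n = g ^ n * h ^ n`. (3) For `a, b` of degree `1` (the unit of `Multiplicative ℤ`), let
`a_j = τ ^ (m j) * a * τ ^ (- m j)`, `b_j` the same for `b`; for `i ≠ j` the elements `a_i, b_i` commute with
`a_j, b_j` (conjugate by `τ ^ (m i)`). So by induction the product of `a_j * b_j` over `j < n` is
`P_n * Q_n`, `P_n` the product of the `a_j`, `Q_n` the product of the `b_j`, and `φ P_n = n φ a`, `φ Q_n = n φ b`,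
`φ (P_n * Q_n) = n φ (a * b)`; hence `n * |φ (a * b) - φ a - φ b| ≤ D` for all `n`, and `φ` is additive on the kernel
`N` of `deg`. (4) Let `ψ g = φ g - φ τ * deg g`; `ψ τ = 0`; let `Ψ g = ψ (g * τ ^ (- deg g))`, a homomorphism
because `(g τ^(-k)) (τ^k (h τ^(-l)) τ^(-k)) = g h τ^(-(k+l))`, (1) and (3). `ψ - Ψ` is homogeneous and bounded
(by the defect of `ψ`, `ψ (τ ^ k) = 0`), so `0`. -/
def S_QM : Prop := ∀ (G : Type) [Group G] (deg : G →* Multiplicative ℤ) (τ : G)
  (_ : deg τ = Multiplicative.ofAdd 1)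
  (_ : ∀ a b : G, deg a = 1 → deg b = 1 → ∃ m : ℤ, ∀ j : ℕ, 1 ≤ j →
    Commute (τ ^ (m * j) * a * (τ ^ (m * j))⁻¹) a ∧ Commute (τ ^ (m * j) * a * (τ ^ (m * j))⁻¹) b ∧
    Commute (τ ^ (m * j) * b * (τ ^ (m * j))⁻¹) a ∧ Commute (τ ^ (m * j) * b * (τ ^ (m * j))⁻¹) b),
  Quasi G ≤ Homs G

/-- **Package Z** (25 min). Proof. Closed: intersection of the preimages of the closed set `Z0` (locally finite union;
or: `x ∈ Z0 ↔ Int.fract (x / 2) ∈ [1/8, 3/8]`; or: complement `= ⋃ (2k + 3/4, 2k + 9/4)`) under continuous maps.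
Periodic: `fZ^[n] (x + 2) = fZ^[n] x + 2 * 5 ^ n`. `x ∈ ZZ ↔ x ∈ Z0 ∧ fZ x ∈ ZZ` by `Function.iterate_succ`.
`1/4` is a fixed point of `fZ` and lies in `Z0`, so `1/4 + 2k ∈ ZZ`, which gives `Unb`. Thin: if no point of `(a, b)`
is outside `ZZ` then `(a, b) ⊆ ZZ`, so the `fZ^[n]`-image `(a', b')`, of length `5 ^ n * (b - a)`, is in `ZZ ⊆ Z0`, but
an interval of length `> 2` is not in `Z0`. NoIso: show by induction on `n`: for `x ∈ ZZ`,
`2k + 1/4 ≤ x ≤ 2k + 3/4` there is `y ∈ ZZ`, `y ≠ x`, `2k + 1/4 ≤ y ≤ 2k + 3/4`, `|y - x| ≤ 1 / 5 ^ n`: for `n = 0` one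
of `x + 2/5`, `x - 2/5` (as `5 x - 1` is in `[10k + 1/4, 10k + 3/4]` or in `[10k + 9/4, 10k + 11/4]`), and for the step
apply the claim to `5 x - 1` to get `y'` and put `y = (y' + 1) / 5`. -/
def S_Z : Prop := IsClosed ZZ ∧ (∀ x, x + 2 ∈ ZZ ↔ x ∈ ZZ) ∧ (∀ x, x ∈ ZZ ↔ x ∈ Z0 ∧ fZ x ∈ ZZ) ∧
  (1 / 4 : ℝ) ∈ ZZ ∧ Unb ZZ ∧ Thin ZZ ∧ NoIso ZZ

/-- **Package C** (30 min); the statement `S_Z` may be assumed. Proof. `r x = x + 2`. For `x`, let `k = ⌊x / 6⌋`,
`u = x - 6 k ∈ [0, 6)` and `c x = 6 k + 5 u + 1` if `u < 1`, `c x = 6 k + (u + 29) / 5` if `1 ≤ u`. Then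
`6 k + 1 ≤ c x < 6 k + 7`, `c` is strictly increasing (compare the `k` first), `c (c x) = x + 6`, `c (x + 6) = c x + 6`,
so `c` is a bijection with the inverse `x ↦ c x - 6` (`c (c x - 6) = c (c x) - 6 = x`). `c x ∈ ZZ ↔ x ∈ ZZ`: by the
periodicity `x ∈ ZZ ↔ u ∈ ZZ`. (*) for `u ∈ [0, 1]`: `u ∈ ZZ ↔ 5 u - 1 ∈ ZZ ↔ 5 u + 1 ∈ ZZ` (if `5 u - 1 ∈ ZZ ⊆ Z0`
then `5 u - 1 ∈ [1/4, 3/4] ∪ [9/4, 11/4]`, so `u ∈ [1/4, 3/4]`). If `u < 1` this is the claim; if `1 ≤ u` use (*) for
`v = (u - 1) / 5 ∈ [0, 1)`, `c x = 6 (k + 1) + v`. `U` is the set of the `x ∈ ZZ` with `x - 6 ⌊x / 6⌋ < 1`: `c`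
exchanges `[6k, 6k + 1)` with `[6k + 1, 6k + 6)` and so on. -/
def S_C : Prop := ∃ c ∈ Stab ZZ, ∃ r ∈ Stab ZZ, ∃ U : Set ℝ, (∀ x ∈ ZZ, c x ∈ U ↔ x ∉ U) ∧
  (∀ x ∈ U, r x ∉ U) ∧ ∀ x ∈ U, r (r x) ∉ U

/-- **Package E** (20-30 min). Proof. `E g` is `e ∘ g ∘ e⁻¹` on `(-1, 1)` (`e` is an order isomorphism of `ℝ` onto
`Ioo (-1) 1`: `orderIsoIooNegOneOne ℝ`) and the identity outside. Strictly increasing: cases. -/
def S_E : Prop := ∃ E : (ℝ ≃o ℝ) →* (ℝ ≃o ℝ), (∀ g x, E g (e x) = e (g x)) ∧ ∀ (g : ℝ ≃o ℝ) (x : ℝ), 1 ≤ |x| → E g x = x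

/-- **Package CAP** (30 min). Proof. `cap K` closed: its complement is
`{x < -1} ∪ {x > 1} ∪ e '' Kᶜ`, and `e` is an open embedding (strictly increasing, continuous, image `Ioo (-1) 1`).
`NoIso`: at `e z` transport by `e`, at `1` use the points of `K` which tend to infinity: for `ε > 0` there is `x0` with
`e x0 > 1 - ε`, and `z ∈ K` with `x0 < z`. `Thin`: inside `(a, b)` there is a smaller interval in `(-1, 1)` or one
outside of `[-1, 1]`. -/
def S_CAP : Prop := ∀ K : Set ℝ, IsClosed K → Unb K → Thin K → NoIso K →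
  IsClosed (cap K) ∧ Thin (cap K) ∧ NoIso (cap K)

/-- **Package PER** (20 min). Proof. Closed: near every point only finitely many translates matter (for instance
`per K` is the union over `n` of the closed sets `{x | x - 2 n ∈ K} ⊆ [2n - 1, 2n + 1]`, a locally finite family; or:
take a convergent sequence; or: on `(2n - 2, 2n + 2)` only three translates matter). `Thin`: choose a subinterval
inside `(2n - 1, 2n + 1)` for some `n`; there `per K` is `K + 2n`. -/
def S_PER : Prop := ∀ K : Set ℝ, IsClosed K → (∀ x ∈ K, |x| ≤ 1) → (1 : ℝ) ∈ K → (-1 : ℝ) ∈ K → Thin K → NoIso K →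
  IsClosed (per K) ∧ Unb (per K) ∧ Thin (per K) ∧ NoIso (per K)

/-- **Package W** (35 min). Proof. `W` is the set of the `g ∈ Stab K` such that there are `k : ℤ` and `L : ℝ` with
`g x = x + 2 k` for all `x` with `L ≤ |x|`; `k` is unique, `deg g = ofAdd k` is multiplicative (for `g * h`, take `|x|`
large so that `|h x|` is large too; for the inverse: `g⁻¹ y = y - 2 k` if `|y - 2 k| ≥ L`). `τ x = x + 2`. Commuting
property: `a`, `b` of degree one (unit) are the identity outside of `[-L, L]`, `L > 0`; then they preserve `[-L, L]`; take `m`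
with `2 m > 2 L`, say `m = ⌈L⌉₊ + 1`; `τ ^ (m j) a τ ^ (- m j)` is the identity outside of `[2 m j - L, 2 m j + L]`,
which is disjoint from `[-L, L]`. Two increasing bijections with disjoint supports (one is the identity outside
of `I`, preserves `I`; the other is the identity outside of `J`, preserves `J`; `I ∩ J = ∅`) commute. -/
def S_W : Prop := ∀ K : Set ℝ, (∀ x, x + 2 ∈ K ↔ x ∈ K) → ∃ W : Subgroup (ℝ ≃o ℝ), W ≤ Stab K ∧
  (∀ g ∈ Stab K, (∃ L : ℝ, ∀ x, L ≤ |x| → g x = x) → g ∈ W) ∧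
  ∃ (deg : W →* Multiplicative ℤ) (τ : W), deg τ = Multiplicative.ofAdd 1 ∧
  ∀ a b : W, deg a = 1 → deg b = 1 → ∃ m : ℤ, ∀ j : ℕ, 1 ≤ j →
    Commute (τ ^ (m * j) * a * (τ ^ (m * j))⁻¹) a ∧ Commute (τ ^ (m * j) * a * (τ ^ (m * j))⁻¹) b ∧
    Commute (τ ^ (m * j) * b * (τ ^ (m * j))⁻¹) a ∧ Commute (τ ^ (m * j) * b * (τ ^ (m * j))⁻¹) b

/-- **Package LIFT** (30 min). Proof. `(x, y) ↦ (g x, y)` is a homeomorphism of the plane (`g.toHomeomorph`) which
preserves `line K`. `OrPres` (see Defs.lean): take `r` with the closed ball in the complement of `line K` and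
`H t (x, y) = ((1 - t) * x + t * g x, y)`, injective because `x ↦ (1 - t) x + t g x` is strictly increasing. -/
def S_LIFT : Prop := ∀ (K : Set ℝ) (hK : IsClosed K), ∃ L : Stab K →* homeoPlus (line K) (line_closed hK),
  ∀ (g : Stab K) (z : Sur (line K)), ((L g : Sur (line K) ≃ₜ Sur (line K)) z).1 = ((g : ℝ ≃o ℝ) z.1.1, z.1.2)

/-- **Package KER** (60 min). Proof. Suppose `p ∈ K`, `g p ≠ p`; we may take (replace nothing, just two symmetric
cases) `g p ≠ p`. By `Thin` there are `x1 < p < x2`, `x1, x2 ∉ K`, such that `g p ∉ [x1, x2]`. Let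
`B` be the boundary of the rectangle `[x1, x2] × [-1, 1]`; `B` is compact and disjoint from `line K`. Let `Φ` be the
level preserving homeomorphism of `[0, 1] × Sur` in `IsoId`. `M = Φ⁻¹ ([0, 1] × B)` is compact, so its projection
`M'` to `Sur`, then to the plane, is compact and disjoint from `line K`, and `(p, 0) ∈ line K`: there is `δ > 0` such that
the point `z = (p, δ)` (in `Sur`) is not in `M'`, and also (`δ` small) `z` is in the open rectangle and `f z = (g p, δ)`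
is outside of the closed rectangle. The path `t ↦ (Φ (t, z)).2 ∈ Sur ⊆ ℝ²` is continuous, starts at `z`, ends at `f z`,
and does not meet `B`: but it leaves the open rectangle, contradiction (the open rectangle and the complement of the
closed rectangle are disjoint open sets which cover the complement of `B`; `isPreconnected_univ` for `unitInterval`). -/
def S_KER : Prop := ∀ (K : Set ℝ) (g : ℝ ≃o ℝ) (f : Sur (line K) ≃ₜ Sur (line K)), Thin K →
  (∀ z : Sur (line K), (f z).1 = (g z.1.1, z.1.2)) → IsoId (line K) f → ∀ x ∈ K, g x = x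

/-- **Package CAN** (20 min). Proof. `line K` is the product of `K` and a point. `Perfect`: closed and
`Preperfect` (every point is an accumulation point, `AccPt`; `accPt_iff_nhds` or `preperfect_iff_nhds`).
Totally disconnected: a preconnected subset of `line K` projects to a preconnected (so order connected) subset of `K`,
which has at most one point by `Thin`. -/
def S_CAN : Prop := ∀ K : Set ℝ, K.Nonempty → IsCompact K → Thin K → NoIso K → IsCantorSet (line K)

end Pool.Agent.U596.QT
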