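import Mathlib
import Pool.Agent.U596.QT.Stm

/-! Project QT: assembly. -/

set_option autoImplicit false

namespace Pool.Agent.U596.QT

open Set Topology

theorem cap_abs {K : Set ℝ} {x : ℝ} (hx : x ∈ cap K) : |x| ≤ 1 := by
  rcases hx with h | h | ⟨z, _, h⟩
  · rw [h]; norm_num
  · rw [h]; norm_num
  · rw [h]; exact (e_abs z).le

theorem one_mem_cap (K : Set ℝ) : (1 : ℝ) ∈ cap K := Or.inl rfl

theorem neg_one_mem_cap (K : Set ℝ) : (-1 : ℝ) ∈ cap K := Or.inr (Or.inl rfl)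

theorem cap_compact {K : Set ℝ} (h : IsClosed (cap K)) : IsCompact (cap K) :=
  isCompact_Icc.of_isClosed_subset h (fun _ hx => abs_le.1 (cap_abs hx))

theorem e_mem_cap {K : Set ℝ} {y : ℝ} : e y ∈ cap K ↔ y ∈ K := by
  constructor
  · rintro (h | h | ⟨z, hz, h⟩)
    · exact absurd h (e_lt y).ne
    · exact absurd h (lt_e y).ne'
    · rw [e_strictMono.injective h]; exact hz
  · intro h
    exact Or.inr (Or.inr ⟨y, h, rfl⟩)

theorem stab_cap {K : Set ℝ} {E : (ℝ ≃o ℝ) →* (ℝ ≃o ℝ)} (h1 : ∀ g x, E g (e x) = e (g x))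
    (h2 : ∀ (g : ℝ ≃o ℝ) (x : ℝ), 1 ≤ |x| → E g x = x) {g : ℝ ≃o ℝ} (hg : g ∈ Stab K) : E g ∈ Stab (cap K) := by
  intro x
  rcases lt_or_ge |x| 1 with h | h
  · obtain ⟨y, rfl⟩ := e_surj h
    rw [h1, e_mem_cap, e_mem_cap]
    exact hg y
  · rw [h2 g x h]

theorem stab_per {K : Set ℝ} (hK : ∀ x ∈ K, |x| ≤ 1) {g : ℝ ≃o ℝ} (hg : g ∈ Stab K)
    (h2 : ∀ x : ℝ, 1 ≤ |x| → g x = x) : g ∈ Stab (per K) := by
  have key : ∀ x : ℝ, |x| < 1 → (x ∈ per K ↔ x ∈ K) := by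
    intro x hx
    constructor
    · rintro ⟨n, hn⟩
      have h := hK _ hn
      have h3 : |2 * (n : ℝ)| < 2 := by
        have : (2 * (n : ℝ)) = x - (x - 2 * n) := by ring
        rw [this]
        exact lt_of_le_of_lt (abs_sub _ _) (by linarith)
      have h4 : |(n : ℝ)| < 1 := by
        rw [abs_mul, abs_two] at h3
        linarith
      have h5 : |n| < 1 := by exact_mod_cast h4
      have h6 : n = 0 := Int.abs_lt_one_iff.1 h5
      subst h6
      simpa using hn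
    · intro h
      exact ⟨0, by simpa using h⟩
  intro x
  rcases lt_or_ge |x| 1 with h | h
  · have h1 : g 1 = 1 := h2 1 (by norm_num)
    have h1' : g (-1) = -1 := h2 (-1) (by norm_num)
    have h3 : |g x| < 1 := by
      rw [abs_lt] at h ⊢
      constructor
      · rw [← h1']; exact g.strictMono h.1
      · rw [← h1]; exact g.strictMono h.2
    rw [key _ h3, key _ h]
    exact hg x
  · rw [h2 x h]

/-- the action of `Stab K` on `K` -/
instance stabAct (K : Set ℝ) : MulAction (Stab K) K where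
  smul g x := ⟨(g : ℝ ≃o ℝ) x.1, (g.2 x.1).2 x.2⟩
  one_smul _ := rfl
  mul_smul _ _ _ := rfl

theorem quasi_range {W M : Type} [Group W] [Group M] (F : W →* M) (hW : Quasi W ≤ Homs W) :
    Quasi F.range ≤ Homs F.range := by
  rintro φ ⟨⟨D, hD⟩, h2⟩
  have h : (fun w => φ (F.rangeRestrict w)) ∈ Quasi W := by
    refine ⟨⟨D, fun g h => ?_⟩, fun g n => ?_⟩
    · simp only [map_mul]; exact hD _ _
    · simp only [map_zpow]; exact h2 _ _
  have h3 := hW h
  intro a b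
  obtain ⟨a, rfl⟩ := F.rangeRestrict_surjective a
  obtain ⟨b, rfl⟩ := F.rangeRestrict_surjective b
  have := h3 a b
  simp only [map_mul] at this
  exact this

theorem fin_of {G : Type} [Group G] (h : Quasi G ≤ Homs G) : Subsingleton (QTilde G) := by
  refine ⟨fun a b => ?_⟩
  obtain ⟨x, rfl⟩ := Submodule.mkQ_surjective _ a
  obtain ⟨y, rfl⟩ := Submodule.mkQ_surjective _ b
  have hx : ∀ x : Quasi G, ((Homs G).submoduleOf (Quasi G)).mkQ x = 0 := fun x => by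
    rw [Submodule.mkQ_apply, Submodule.Quotient.mk_eq_zero]
    exact h x.2
  rw [hx, hx]

theorem main (hNA : S_NA) (hQM : S_QM) (hZ : S_Z) (hC : S_C) (hE : S_E) (hCAP : S_CAP) (hPER : S_PER) (hW : S_W)
    (hLIFT : S_LIFT) (hKER : S_KER) (hCAN : S_CAN) :
    ∃ (C : Set (ℝ × ℝ)) (hC : IsClosed C), IsCantorSet C ∧
      ∃ H : Subgroup (MCG C hC), ¬ Amenable H ∧ Quasi H ≤ Homs H := by
  obtain ⟨z1, z2, -, z4, z5, z6, z7⟩ := hZ
  obtain ⟨c, hc, r, hr, U, u1, u2, u3⟩ := hC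
  obtain ⟨E, e1, e2⟩ := hE
  obtain ⟨a1, a2, a3⟩ := hCAP ZZ z1 z5 z6 z7
  obtain ⟨b1, b2, b3, b4⟩ := hPER (cap ZZ) a1 (fun x hx => cap_abs hx) (one_mem_cap _) (neg_one_mem_cap _) a2 a3
  obtain ⟨d1, d2, d3⟩ := hCAP _ b1 b2 b3 b4
  have hper : ∀ x, x + 2 ∈ per (cap ZZ) ↔ x ∈ per (cap ZZ) := by
    intro x
    constructor
    · rintro ⟨n, hn⟩
      refine ⟨n - 1, ?_⟩
      have : x - 2 * ((n - 1 : ℤ) : ℝ) = x + 2 - 2 * n := by push_cast; ring
      rw [this]; exact hn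
    · rintro ⟨n, hn⟩
      refine ⟨n + 1, ?_⟩
      have : x + 2 - 2 * ((n + 1 : ℤ) : ℝ) = x - 2 * n := by push_cast; ring
      rw [this]; exact hn
  obtain ⟨W, w1, w2, deg, τ, w3, w4⟩ := hW _ hper
  have hWq : Quasi W ≤ Homs W := hQM W deg τ w3 w4
  obtain ⟨L, hL⟩ := hLIFT (cap (per (cap ZZ))) d1
  set C0 := cap (per (cap ZZ)) with hC0
  refine ⟨line C0, line_closed d1, hCAN C0 ⟨1, one_mem_cap _⟩ (cap_compact d1) d2 d3, ?_⟩
  -- the homomorphism of `W` to the mapping class group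
  let EW : W →* Stab C0 :=
    { toFun := fun w => ⟨E (w : ℝ ≃o ℝ), stab_cap e1 e2 (w1 w.2)⟩
      map_one' := by ext1; simp
      map_mul' := fun a b => by ext1; simp }
  let F : W →* MCG (line C0) (line_closed d1) :=
    (QuotientGroup.mk' ((iso0 (line C0)).subgroupOf (homeoPlus (line C0) (line_closed d1)))).comp (L.comp EW)
  have hF : ∀ w : W, F w = 1 → ∀ x ∈ C0, E (w : ℝ ≃o ℝ) x = x := by
    intro w hw
    have h1 : (L (EW w)) ∈ (iso0 (line C0)).subgroupOf (homeoPlus (line C0) (line_closed d1)) := by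
      rw [← QuotientGroup.eq_one_iff]
      exact hw
    have h2 : IsoId (line C0) (L (EW w) : Sur (line C0) ≃ₜ Sur (line C0)) := h1
    exact hKER C0 (E (w : ℝ ≃o ℝ)) _ d2 (fun z => hL (EW w) z) h2
  refine ⟨F.range, ?_, quasi_range F hWq⟩
  -- the homomorphism of `Stab ZZ` to `H`
  have hEW : ∀ g : Stab ZZ, E (g : ℝ ≃o ℝ) ∈ W := by
    intro g
    refine w2 _ (stab_per (fun x hx => cap_abs hx) (stab_cap e1 e2 g.2) (e2 _)) ⟨1, e2 _⟩
  let T : Stab ZZ →* F.range :=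
    F.rangeRestrict.comp
      { toFun := fun g => (⟨E (g : ℝ ≃o ℝ), hEW g⟩ : W)
        map_one' := by ext1; simp
        map_mul' := fun a b => by ext1; simp }
  have hT : ∀ g : Stab ZZ, T g = 1 → ∀ x : ZZ, g • x = x := by
    intro g hg x
    have h1 : F ⟨E (g : ℝ ≃o ℝ), hEW g⟩ = 1 := congrArg Subtype.val hg
    have h2 := hF _ h1 (e (e x.1)) (e_mem_cap.2 ⟨0, by simpa using e_mem_cap.2 x.2⟩)
    rw [e1, e1] at h2
    exact Subtype.ext (e_strictMono.injective (e_strictMono.injective h2))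
  haveI : Nonempty ZZ := ⟨⟨_, z4⟩⟩
  refine hNA (Stab ZZ) F.range ZZ T hT ⟨c, hc⟩ ⟨r, hr⟩ {x | x.1 ∈ U} (fun x => u1 x.1 x.2) (fun x hx => u2 _ hx)
    (fun x hx => u3 _ hx)

end Pool.Agent.U596.QT
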