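import Mathlib
import Pool.Agent.U596.QT.Stm

/-! Project QT (helper596), package C (helper354). -/

set_option autoImplicit false

namespace Pool.Agent.U596.QT

open Set Topology

/-- the map on `[0, 6)` -/
noncomputable def c_g (u : ℝ) : ℝ := if u < 1 then 5 * u + 1 else (u + 29) / 5

/-- the piecewise linear map -/
noncomputable def c_f (x : ℝ) : ℝ := 6 * (⌊x / 6⌋ : ℝ) + c_g (x - 6 * (⌊x / 6⌋ : ℝ))

/-- the set `U` -/
def c_U : Set ℝ := {x | x ∈ ZZ ∧ x - 6 * (⌊x / 6⌋ : ℝ) < 1}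

theorem c_floor (k : ℤ) (u : ℝ) (h0 : 0 ≤ u) (h6 : u < 6) : ⌊(6 * (k : ℝ) + u) / 6⌋ = k := by
  rw [Int.floor_eq_iff]
  constructor
  · rw [le_div_iff₀ (by norm_num)]; linarith
  · rw [div_lt_iff₀ (by norm_num)]; linarith

theorem c_dec (x : ℝ) : ∃ (k : ℤ) (u : ℝ), 0 ≤ u ∧ u < 6 ∧ x = 6 * (k : ℝ) + u := by
  refine ⟨⌊x / 6⌋, x - 6 * (⌊x / 6⌋ : ℝ), ?_, ?_, by ring⟩
  · have := Int.floor_le (x / 6)
    rw [le_div_iff₀ (by norm_num)] at this
    linarith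
  · have := Int.lt_floor_add_one (x / 6)
    rw [div_lt_iff₀ (by norm_num)] at this
    linarith

theorem c_f_eq (k : ℤ) (u : ℝ) (h0 : 0 ≤ u) (h6 : u < 6) : c_f (6 * (k : ℝ) + u) = 6 * (k : ℝ) + c_g u := by
  unfold c_f
  rw [c_floor k u h0 h6]
  congr 2
  ring

theorem c_g_lt {u : ℝ} (h : u < 1) : c_g u = 5 * u + 1 := if_pos h

theorem c_g_ge {u : ℝ} (h : 1 ≤ u) : c_g u = (u + 29) / 5 := if_neg (not_lt.2 h)

theorem c_g_bd {u : ℝ} (h0 : 0 ≤ u) (h6 : u < 6) : 1 ≤ c_g u ∧ c_g u < 7 := by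
  rcases lt_or_ge u 1 with h | h
  · rw [c_g_lt h]; constructor <;> linarith
  · rw [c_g_ge h]
    constructor
    · rw [le_div_iff₀ (by norm_num)]; linarith
    · rw [div_lt_iff₀ (by norm_num)]; linarith

theorem c_g_mono {u v : ℝ} (huv : u < v) : c_g u < c_g v := by
  rcases lt_or_ge u 1 with h | h
  · rcases lt_or_ge v 1 with h' | h'
    · rw [c_g_lt h, c_g_lt h']; linarith
    · rw [c_g_lt h, c_g_ge h', lt_div_iff₀ (by norm_num)]; linarith
  · rw [c_g_ge h, c_g_ge (h.trans huv.le)]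
    have : (5 : ℝ) > 0 := by norm_num
    exact div_lt_div_of_pos_right (by linarith) this

theorem c_f_mono : StrictMono c_f := by
  intro x y hxy
  obtain ⟨k, u, hu0, hu6, rfl⟩ := c_dec x
  obtain ⟨l, v, hv0, hv6, rfl⟩ := c_dec y
  rw [c_f_eq k u hu0 hu6, c_f_eq l v hv0 hv6]
  rcases lt_trichotomy k l with h | h | h
  · have h1 : (k : ℝ) + 1 ≤ l := by exact_mod_cast h
    have h2 := (c_g_bd hu0 hu6).2
    have h3 := (c_g_bd hv0 hv6).1
    linarith
  · subst h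
    have := c_g_mono (u := u) (v := v) (by linarith)
    linarith
  · have h1 : (l : ℝ) + 1 ≤ k := by exact_mod_cast h
    exfalso
    linarith

theorem c_f_surj : Function.Surjective c_f := by
  intro y
  obtain ⟨k, u, hu0, hu6, rfl⟩ := c_dec y
  rcases lt_or_ge u 1 with h | h
  · refine ⟨6 * ((k - 1 : ℤ) : ℝ) + (5 * u + 1), ?_⟩
    rw [c_f_eq _ _ (by linarith) (by linarith), c_g_ge (by linarith)]
    push_cast
    ring
  · refine ⟨6 * (k : ℝ) + (u - 1) / 5, ?_⟩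
    have h1 : (u - 1) / 5 < 1 := by rw [div_lt_iff₀ (by norm_num)]; linarith
    have h0 : 0 ≤ (u - 1) / 5 := div_nonneg (by linarith) (by norm_num)
    rw [c_f_eq _ _ h0 (by linarith), c_g_lt h1]
    ring

theorem c_per (h2 : ∀ x, x + 2 ∈ ZZ ↔ x ∈ ZZ) (k : ℤ) (x : ℝ) : 6 * (k : ℝ) + x ∈ ZZ ↔ x ∈ ZZ := by
  have hP : Function.Periodic (fun x : ℝ => x ∈ ZZ) 2 := fun x => propext (h2 x)
  have h := hP.int_mul (3 * k) x
  have e1 : x + ((3 * k : ℤ) : ℝ) * 2 = 6 * (k : ℝ) + x := by push_cast; ring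
  rw [← e1]
  exact iff_of_eq h

/-- `(*)` -/
theorem c_star (hrec : ∀ x, x ∈ ZZ ↔ x ∈ Z0 ∧ fZ x ∈ ZZ) {u : ℝ} (h0 : 0 ≤ u) (h1 : u ≤ 1) :
    u ∈ ZZ ↔ 5 * u - 1 ∈ ZZ := by
  have e : fZ u = 5 * u - 1 := rfl
  rw [hrec u, e]
  constructor
  · exact fun h => h.2
  · intro h
    refine ⟨?_, h⟩
    obtain ⟨k, hk1, hk2⟩ := ((hrec _).1 h).1
    have a1 : (k : ℝ) < 2 := by linarith
    have a2 : (-1 : ℝ) < k := by linarith
    have b1 : k < 2 := by exact_mod_cast a1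
    have b2 : -1 < k := by exact_mod_cast a2
    obtain rfl | rfl : k = 0 ∨ k = 1 := by omega
    · refine ⟨0, ?_, ?_⟩ <;> push_cast at hk1 hk2 ⊢ <;> linarith
    · refine ⟨0, ?_, ?_⟩ <;> push_cast at hk1 hk2 ⊢ <;> linarith

theorem t_C (hZ : S_Z) : S_C := by
  obtain ⟨-, h2, hrec, -, -, -, -⟩ := hZ
  -- the map `c`
  have hc : ∀ x, c_f x ∈ ZZ ↔ x ∈ ZZ := by
    intro x
    obtain ⟨k, u, hu0, hu6, rfl⟩ := c_dec x
    rw [c_f_eq k u hu0 hu6, c_per h2, c_per h2]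
    rcases lt_or_ge u 1 with h | h
    · rw [c_g_lt h, c_star hrec hu0 h.le, ← h2 (5 * u - 1)]
      have : 5 * u - 1 + 2 = 5 * u + 1 := by ring
      rw [this]
    · rw [c_g_ge h]
      have h0 : 0 ≤ (u - 1) / 5 := div_nonneg (by linarith) (by norm_num)
      have h1 : (u - 1) / 5 ≤ 1 := by rw [div_le_iff₀ (by norm_num)]; linarith
      have e1 : (u + 29) / 5 = 6 * ((1 : ℤ) : ℝ) + (u - 1) / 5 := by push_cast; ring
      rw [e1, c_per h2, c_star hrec h0 h1, ← h2]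
      have e2 : 5 * ((u - 1) / 5) - 1 + 2 = u := by ring
      rw [e2]
  refine ⟨StrictMono.orderIsoOfSurjective c_f c_f_mono c_f_surj, ?_, OrderIso.addRight 2, ?_, c_U, ?_, ?_, ?_⟩
  · intro x
    rw [StrictMono.coe_orderIsoOfSurjective]
    exact hc x
  · intro x
    exact h2 x
  · intro x hx
    rw [StrictMono.coe_orderIsoOfSurjective]
    have hcx := (hc x).2 hx
    obtain ⟨k, u, hu0, hu6, rfl⟩ := c_dec x
    unfold c_U
    simp only [mem_setOf_eq, hcx, hx, true_and]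
    rw [c_floor k u hu0 hu6, c_f_eq k u hu0 hu6]
    rcases lt_or_ge u 1 with h | h
    · rw [c_g_lt h]
      have e1 : ⌊(6 * (k : ℝ) + (5 * u + 1)) / 6⌋ = k := c_floor k _ (by linarith) (by linarith)
      rw [e1]
      constructor
      · intro h'; exfalso; linarith
      · intro h'; exfalso; apply h'; linarith
    · rw [c_g_ge h]
      have h0 : 0 ≤ (u - 1) / 5 := div_nonneg (by linarith) (by norm_num)
      have h1 : (u - 1) / 5 < 1 := by rw [div_lt_iff₀ (by norm_num)]; linarith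
      have e0 : 6 * (k : ℝ) + (u + 29) / 5 = 6 * ((k + 1 : ℤ) : ℝ) + (u - 1) / 5 := by push_cast; ring
      rw [e0, c_floor (k + 1) _ h0 (by linarith)]
      constructor
      · intro _ h'; linarith
      · intro _; linarith
  · intro x hx hx'
    obtain ⟨k, u, hu0, hu6, rfl⟩ := c_dec x
    have h1 : u < 1 := by
      have := hx.2
      rw [c_floor k u hu0 hu6] at this
      linarith
    have h3 : (6 * (k : ℝ) + u + 2) - 6 * (⌊(6 * (k : ℝ) + u + 2) / 6⌋ : ℝ) < 1 := hx'.2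
    have e1 : 6 * (k : ℝ) + u + 2 = 6 * (k : ℝ) + (u + 2) := by ring
    rw [e1, c_floor k _ (by linarith) (by linarith)] at h3
    linarith
  · intro x hx hx'
    obtain ⟨k, u, hu0, hu6, rfl⟩ := c_dec x
    have h1 : u < 1 := by
      have := hx.2
      rw [c_floor k u hu0 hu6] at this
      linarith
    have h3 : (6 * (k : ℝ) + u + 2 + 2) - 6 * (⌊(6 * (k : ℝ) + u + 2 + 2) / 6⌋ : ℝ) < 1 := hx'.2
    have e1 : 6 * (k : ℝ) + u + 2 + 2 = 6 * (k : ℝ) + (u + 4) := by ring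
    rw [e1, c_floor k _ (by linarith) (by linarith)] at h3
    linarith

end Pool.Agent.U596.QT
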