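import Mathlib
import Pool.Agent.U596.QT.Stm

set_option autoImplicit false

namespace Pool.Agent.U596.QT

open Set Topology

private theorem can_line (K : Set ℝ) : line K = K ×ˢ ({0} : Set ℝ) := by
  ext z
  exact Iff.rfl

theorem t_CAN : S_CAN := by
  intro K hne hc hthin hiso
  refine ⟨?_, ?_, ⟨?_, ?_⟩, ?_⟩
  · obtain ⟨x, hx⟩ := hne
    exact ⟨(x, 0), hx, rfl⟩
  · rw [can_line]
    exact hc.prod isCompact_singleton
  · exact line_closed hc.isClosed
  · rw [preperfect_iff_nhds]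
    rintro ⟨x, t⟩ ⟨hx, ht⟩ U hU
    simp only at hx ht
    subst ht
    obtain ⟨ε, hε, hball⟩ := Metric.mem_nhds_iff.1 hU
    obtain ⟨y, hy, hyx, hlt⟩ := hiso x hx ε hε
    refine ⟨(y, 0), ⟨hball ?_, hy, rfl⟩, ?_⟩
    · rw [Metric.mem_ball, Prod.dist_eq, dist_self, Real.dist_eq]
      exact max_lt hlt hε
    · intro h
      exact hyx (congrArg Prod.fst h)
  · intro t ht hpre
    have himg : IsPreconnected (Prod.fst '' t) := hpre.image _ continuous_fst.continuousOn
    have hord : OrdConnected (Prod.fst '' t) := himg.ordConnected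
    have key : ∀ z ∈ t, ∀ w ∈ t, ¬ z.1 < w.1 := by
      intro z hz w hw hlt
      obtain ⟨y, h1, h2, h3⟩ := hthin _ _ hlt
      obtain ⟨v, hv, hvy⟩ := hord.out (mem_image_of_mem _ hz) (mem_image_of_mem _ hw) ⟨h1.le, h2.le⟩
      apply h3
      rw [← hvy]
      exact (ht hv).1
    intro z hz w hw
    refine Prod.ext ?_ ?_
    · exact le_antisymm (not_lt.1 (key w hw z hz)) (not_lt.1 (key z hz w hw))
    · rw [(ht hz).2, (ht hw).2]

end Pool.Agent.U596.QT
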