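import Mathlib
import Pool.Agent.U596.QT.Stm

/-! Project QT (helper596), package CAP (helper979): the compactification of a closed thin set. -/

set_option autoImplicit false

namespace Pool.Agent.U596.QT

open Set Topology

theorem cap_isOpenMap_e : IsOpenMap e :=
  (isOpen_Ioo.isOpenMap_subtype_val).comp (orderIsoIooNegOneOne ℝ).toHomeomorph.isOpenMap

theorem cap_compl (K : Set ℝ) : (cap K)ᶜ = Iio (-1) ∪ (Ioi 1 ∪ e '' Kᶜ) := by
  ext x
  constructor
  · intro hx
    have hx1 : x ≠ 1 := fun h => hx (Or.inl h)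
    have hx2 : x ≠ -1 := fun h => hx (Or.inr (Or.inl h))
    rcases lt_or_gt_of_ne hx2 with h | h
    · exact Or.inl h
    rcases lt_or_gt_of_ne hx1 with h' | h'
    · obtain ⟨w, hw⟩ := e_surj (abs_lt.2 ⟨h, h'⟩)
      refine Or.inr (Or.inr ⟨w, fun hwK => hx (Or.inr (Or.inr ⟨w, hwK, hw.symm⟩)), hw⟩)
    · exact Or.inr (Or.inl h')
  · rintro (h | h | ⟨w, hw, rfl⟩)
    · rintro (h1 | h1 | ⟨z, -, rfl⟩)
      · rw [mem_Iio] at h; linarith
      · rw [mem_Iio] at h; linarith
      · have := lt_e z
        rw [mem_Iio] at h; linarith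
    · rintro (h1 | h1 | ⟨z, -, rfl⟩)
      · rw [mem_Ioi] at h; linarith
      · rw [mem_Ioi] at h; linarith
      · have := e_lt z
        rw [mem_Ioi] at h; linarith
    · rintro (h1 | h1 | ⟨z, hz, h1⟩)
      · have := e_lt w; linarith
      · have := lt_e w; linarith
      · exact hw (e_strictMono.injective h1 ▸ hz)

theorem t_CAP : S_CAP := by
  intro K hK hU hT hI
  refine ⟨?_, ?_, ?_⟩
  · rw [← isOpen_compl_iff, cap_compl]
    exact isOpen_Iio.union (isOpen_Ioi.union (cap_isOpenMap_e _ hK.isOpen_compl))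
  · intro a b hab
    have key : ∀ x, x ∈ (cap K)ᶜ → x ∉ cap K := fun x hx => hx
    rcases lt_or_ge a (-1) with h | h
    · refine ⟨(a + min b (-1)) / 2, ?_, ?_, key _ ?_⟩
      · have : a < min b (-1) := lt_min hab h
        linarith
      · have h1 : a < min b (-1) := lt_min hab h
        have h2 := min_le_left b (-1)
        linarith
      · rw [cap_compl]
        have h1 : a < min b (-1) := lt_min hab h
        have h2 := min_le_right b (-1)
        left
        rw [mem_Iio]
        linarith
    rcases lt_or_ge 1 b with h' | h'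
    · refine ⟨(max a 1 + b) / 2, ?_, ?_, key _ ?_⟩
      · have h1 : max a 1 < b := max_lt hab h'
        have h2 := le_max_left a 1
        linarith
      · have h1 : max a 1 < b := max_lt hab h'
        linarith
      · rw [cap_compl]
        have h1 : max a 1 < b := max_lt hab h'
        have h2 := le_max_right a 1
        right; left
        rw [mem_Ioi]
        linarith
    · obtain ⟨u, hu⟩ := e_surj (y := (2 * a + b) / 3) (abs_lt.2 ⟨by linarith, by linarith⟩)
      obtain ⟨v, hv⟩ := e_surj (y := (a + 2 * b) / 3) (abs_lt.2 ⟨by linarith, by linarith⟩)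
      have huv : u < v := by
        rw [← e_strictMono.lt_iff_lt, hu, hv]
        linarith
      obtain ⟨w, hw1, hw2, hw3⟩ := hT u v huv
      have k1 := e_strictMono hw1
      have k2 := e_strictMono hw2
      rw [hu] at k1
      rw [hv] at k2
      refine ⟨e w, by linarith, by linarith, key _ ?_⟩
      rw [cap_compl]
      exact Or.inr (Or.inr ⟨w, hw3, rfl⟩)
  · rintro x (rfl | rfl | ⟨z, hz, rfl⟩) ε hε
    · obtain ⟨x0, hx0⟩ := e_surj (y := max (1 - ε / 2) 0)
        (abs_lt.2 ⟨by have := le_max_right (1 - ε / 2) (0 : ℝ); linarith,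
          max_lt (by linarith) one_pos⟩)
      obtain ⟨z, hz, hz0⟩ := hU.1 x0
      have h1 := e_strictMono hz0
      rw [hx0] at h1
      have h2 := le_max_left (1 - ε / 2) (0 : ℝ)
      have h3 := e_lt z
      refine ⟨e z, Or.inr (Or.inr ⟨z, hz, rfl⟩), h3.ne, ?_⟩
      rw [abs_lt]
      constructor <;> linarith
    · obtain ⟨x0, hx0⟩ := e_surj (y := min (-1 + ε / 2) 0)
        (abs_lt.2 ⟨lt_min (by linarith) (by norm_num),
          by have := min_le_right (-1 + ε / 2) (0 : ℝ); linarith⟩)
      obtain ⟨z, hz, hz0⟩ := hU.2 x0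
      have h1 := e_strictMono hz0
      rw [hx0] at h1
      have h2 := min_le_left (-1 + ε / 2) (0 : ℝ)
      have h3 := lt_e z
      refine ⟨e z, Or.inr (Or.inr ⟨z, hz, rfl⟩), h3.ne', ?_⟩
      rw [abs_lt]
      constructor <;> linarith
    · obtain ⟨δ, hδ, h⟩ := Metric.continuousAt_iff.1 (e_cont.continuousAt (x := z)) ε hε
      obtain ⟨y, hy, hyz, hyd⟩ := hI z hz δ hδ
      refine ⟨e y, Or.inr (Or.inr ⟨y, hy, rfl⟩), fun h1 => hyz (e_strictMono.injective h1), ?_⟩
      have := h (x := y) (by rw [Real.dist_eq]; exact hyd)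
      rwa [Real.dist_eq] at this

end Pool.Agent.U596.QT
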