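import Mathlib
import Pool.Agent.U596.QT.Stm

/-! Package E of project QT: extension of increasing bijections of the line by `e : ℝ → (-1, 1)`. -/

set_option autoImplicit false

namespace Pool.Agent.U596.QT

open Set Topology

/-- the conjugate of `g` by `e`, the identity outside of `(-1, 1)` -/
noncomputable def e_ext (g : ℝ ≃o ℝ) (x : ℝ) : ℝ :=
  open Classical in if |x| < 1 then e (g (Function.invFun e x)) else x

private theorem e_inv (y : ℝ) : Function.invFun e (e y) = y :=
  Function.leftInverse_invFun e_strictMono.injective y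

private theorem e_ext_e (g : ℝ ≃o ℝ) (y : ℝ) : e_ext g (e y) = e (g y) := by
  unfold e_ext
  rw [if_pos (e_abs y), e_inv]

private theorem e_ext_out (g : ℝ ≃o ℝ) {x : ℝ} (h : 1 ≤ |x|) : e_ext g x = x := by
  unfold e_ext
  rw [if_neg (not_lt.2 h)]

private theorem e_ext_mul (g h : ℝ ≃o ℝ) (x : ℝ) : e_ext (g * h) x = e_ext g (e_ext h x) := by
  rcases lt_or_ge |x| 1 with hx | hx
  · obtain ⟨y, rfl⟩ := e_surj hx
    rw [e_ext_e, e_ext_e, e_ext_e]
    rfl
  · rw [e_ext_out _ hx, e_ext_out h hx, e_ext_out g hx]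

private theorem e_ext_one (x : ℝ) : e_ext 1 x = x := by
  rcases lt_or_ge |x| 1 with hx | hx
  · obtain ⟨y, rfl⟩ := e_surj hx
    rw [e_ext_e]
    rfl
  · exact e_ext_out _ hx

private theorem e_ext_mono (g : ℝ ≃o ℝ) : StrictMono (e_ext g) := by
  intro x y hxy
  rcases lt_or_ge |x| 1 with hx | hx
  · obtain ⟨a, rfl⟩ := e_surj hx
    rw [e_ext_e]
    rcases lt_or_ge |y| 1 with hy | hy
    · obtain ⟨b, rfl⟩ := e_surj hy
      rw [e_ext_e]
      exact e_strictMono (g.strictMono (e_strictMono.lt_iff_lt.1 hxy))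
    · rw [e_ext_out _ hy]
      rcases le_abs.1 hy with h | h
      · exact lt_of_lt_of_le (e_lt _) h
      · have := lt_e a
        linarith
  · rw [e_ext_out _ hx]
    rcases lt_or_ge |y| 1 with hy | hy
    · obtain ⟨b, rfl⟩ := e_surj hy
      rw [e_ext_e]
      rcases le_abs.1 hx with h | h
      · have := e_lt b
        linarith
      · have := lt_e (g b)
        linarith
    · rw [e_ext_out _ hy]
      exact hxy

/-- the extension as an increasing homeomorphism of the line -/
noncomputable def e_iso (g : ℝ ≃o ℝ) : ℝ ≃o ℝ :=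
  StrictMono.orderIsoOfRightInverse (e_ext g) (e_ext_mono g) (e_ext g⁻¹) (fun x => by
    rw [← e_ext_mul, mul_inv_cancel, e_ext_one])

private theorem e_iso_apply (g : ℝ ≃o ℝ) (x : ℝ) : e_iso g x = e_ext g x := rfl

theorem t_E : S_E := by
  refine ⟨{ toFun := e_iso, map_one' := ?_, map_mul' := ?_ }, ?_, ?_⟩
  · ext x
    rw [e_iso_apply, e_ext_one]
    rfl
  · intro g h
    ext x
    rw [e_iso_apply, e_ext_mul]
    rfl
  · intro g x
    exact e_ext_e g x
  · intro g x hx
    exact e_ext_out g hx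

end Pool.Agent.U596.QT
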