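import Mathlib
import Pool.Agent.U596.QT.Stm

/-! Project QT, package KER: a homeomorphism `(x, y) ↦ (g x, y)` of the plane minus `K × {0}`, `K` without intervals,
which is isotopic to the identity fixes the points of `K`. -/

set_option autoImplicit false

namespace Pool.Agent.U596.QT

open Set Topology

private lemma ker_box (K : Set ℝ) (p q : ℝ) (hK : Thin K) (hpq : q ≠ p) :
    ∃ x1 x2 : ℝ, x1 < p ∧ p < x2 ∧ x1 ∉ K ∧ x2 ∉ K ∧ q ∉ Icc x1 x2 := by
  have hd : 0 < |q - p| := abs_pos.2 (sub_ne_zero.2 hpq)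
  obtain ⟨x1, h1, h2, h3⟩ := hK (p - |q - p|) p (by linarith)
  obtain ⟨x2, h4, h5, h6⟩ := hK p (p + |q - p|) (by linarith)
  refine ⟨x1, x2, h2, h4, h3, h6, fun h => ?_⟩
  rcases abs_cases (q - p) with ⟨ha, _⟩ | ⟨ha, _⟩
  · rw [ha] at h5
    linarith [h.2]
  · rw [ha] at h1
    linarith [h.1]

theorem t_KER : S_KER := by
  intro K g f hK hf hiso p hp
  by_contra hne
  obtain ⟨x1, x2, h1, h2, k1, k2, hg⟩ := ker_box K p (g p) hK hne
  obtain ⟨Φ, hΦ, hΦ0, hΦ1⟩ := hiso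
  let R : Set (ℝ × ℝ) := Icc x1 x2 ×ˢ Icc (-1) 1
  let U : Set (ℝ × ℝ) := Ioo x1 x2 ×ˢ Ioo (-1) 1
  have hUo : IsOpen U := isOpen_Ioo.prod isOpen_Ioo
  have hRc : IsCompact R := isCompact_Icc.prod isCompact_Icc
  have hUR : U ⊆ R := prod_mono Ioo_subset_Icc_self Ioo_subset_Icc_self
  have hBc : IsCompact (R \ U) := hRc.diff hUo
  have hBl : ∀ z ∈ R \ U, z ∉ line K := by
    rintro ⟨a, b⟩ ⟨⟨ha, hb⟩, hU⟩ ⟨haK, hb0⟩
    simp only at ha hb haK hb0
    apply hU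
    subst hb0
    refine ⟨⟨lt_of_le_of_ne ha.1 ?_, lt_of_le_of_ne ha.2 ?_⟩, by norm_num⟩
    · rintro rfl
      exact k1 haK
    · rintro rfl
      exact k2 haK
  let BS : Set (Sur (line K)) := Subtype.val ⁻¹' (R \ U)
  have hBS : IsCompact BS := by
    refine (Topology.IsInducing.subtypeVal.isCompact_preimage_iff ?_).2 hBc
    intro z hz
    exact ⟨⟨z, hBl z hz⟩, rfl⟩
  let M : Set (ℝ × ℝ) := (fun w : unitInterval × Sur (line K) => (Φ.symm w).2.1) '' (univ ×ˢ BS)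
  have hMc : IsCompact M := by
    refine (isCompact_univ.prod hBS).image ?_
    exact continuous_subtype_val.comp (continuous_snd.comp Φ.symm.continuous)
  have hpM : ((p, 0) : ℝ × ℝ) ∈ Mᶜ := by
    rintro ⟨w, _, hw⟩
    have h := (Φ.symm w).2.2
    apply h
    simp only at hw
    rw [hw]
    exact ⟨hp, rfl⟩
  obtain ⟨ε, hε, hball⟩ := Metric.isOpen_iff.1 hMc.isClosed.isOpen_compl _ hpM
  obtain ⟨δ, hδ0, hδ1, hδ2⟩ : ∃ δ : ℝ, 0 < δ ∧ δ < ε ∧ δ < 1 := by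
    refine ⟨min (ε / 2) (1 / 2), by positivity, ?_, ?_⟩
    · exact lt_of_le_of_lt (min_le_left _ _) (by linarith)
    · exact lt_of_le_of_lt (min_le_right _ _) (by norm_num)
  have hzM : ((p, δ) : ℝ × ℝ) ∉ M := by
    apply hball
    rw [Metric.mem_ball, Prod.dist_eq]
    simp only [dist_self, Real.dist_eq, sub_zero, abs_of_pos hδ0]
    exact max_lt hε hδ1
  have hzl : ((p, δ) : ℝ × ℝ) ∉ line K := fun h => hδ0.ne' h.2
  let z : Sur (line K) := ⟨(p, δ), hzl⟩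
  let γ : unitInterval → ℝ × ℝ := fun t => (Φ (t, z)).2.1
  have hγ : Continuous γ :=
    continuous_subtype_val.comp (continuous_snd.comp (Φ.continuous.comp (by fun_prop)))
  have hγB : ∀ t, γ t ∉ R \ U := by
    intro t ht
    apply hzM
    refine ⟨Φ (t, z), ⟨mem_univ _, ht⟩, ?_⟩
    simp only [Homeomorph.symm_apply_apply]
    rfl
  have hγ0 : γ 0 ∈ U := by
    have : γ 0 = (p, δ) := by
      show (Φ (0, z)).2.1 = _
      rw [hΦ0]
    rw [this]
    exact ⟨⟨h1, h2⟩, ⟨by linarith, hδ2⟩⟩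
  have hγ1 : γ 1 ∉ R := by
    have : γ 1 = (g p, δ) := by
      show (Φ (1, z)).2.1 = _
      rw [hΦ1, hf]
    rw [this]
    exact fun h => hg h.1
  have hpre : IsPreconnected (univ : Set unitInterval) := isPreconnected_univ
  obtain ⟨t, -, ht1, ht2⟩ := hpre (γ ⁻¹' U) (γ ⁻¹' Rᶜ) (hUo.preimage hγ)
    (hRc.isClosed.isOpen_compl.preimage hγ) (fun t _ => by
      by_cases h : γ t ∈ R
      · left
        by_contra hU
        exact hγB t ⟨h, hU⟩
      · exact Or.inr h) ⟨0, mem_univ _, hγ0⟩ ⟨1, mem_univ _, hγ1⟩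
  exact ht2 (hUR ht1)

end Pool.Agent.U596.QT
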