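import Mathlib
import Pool.Agent.U596.QT.Stm

/-! Project QT, package LIFT: increasing bijections of the line act on the plane minus `line K`. -/

set_option autoImplicit false

namespace Pool.Agent.U596.QT

open Set Topology

/-- the homeomorphism `(x, y) ↦ (g x, y)` of the plane minus `line K` -/
noncomputable def lift_homeo (K : Set ℝ) (g : Stab K) : Sur (line K) ≃ₜ Sur (line K) where
  toFun z := ⟨((g : ℝ ≃o ℝ) z.1.1, z.1.2), fun h => z.2 ⟨(g.2 z.1.1).1 h.1, h.2⟩⟩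
  invFun z := ⟨((g : ℝ ≃o ℝ).symm z.1.1, z.1.2), fun h => z.2 ⟨by
    have h1 := (g.2 ((g : ℝ ≃o ℝ).symm z.1.1)).2 h.1
    rwa [OrderIso.apply_symm_apply] at h1, h.2⟩⟩
  left_inv z := by
    refine Subtype.ext (Prod.ext ?_ rfl)
    exact (g : ℝ ≃o ℝ).symm_apply_apply z.1.1
  right_inv z := by
    refine Subtype.ext (Prod.ext ?_ rfl)
    exact (g : ℝ ≃o ℝ).apply_symm_apply z.1.1
  continuous_toFun := by
    refine Continuous.subtype_mk ?_ _
    exact ((g : ℝ ≃o ℝ).continuous.comp (continuous_fst.comp continuous_subtype_val)).prodMk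
      (continuous_snd.comp continuous_subtype_val)
  continuous_invFun := by
    refine Continuous.subtype_mk ?_ _
    exact ((g : ℝ ≃o ℝ).symm.continuous.comp (continuous_fst.comp continuous_subtype_val)).prodMk
      (continuous_snd.comp continuous_subtype_val)

theorem lift_homeo_apply (K : Set ℝ) (g : Stab K) (z : Sur (line K)) :
    (lift_homeo K g z).1 = ((g : ℝ ≃o ℝ) z.1.1, z.1.2) := rfl

theorem lift_orPres (K : Set ℝ) (hK : IsClosed K) (g : Stab K) : OrPres (line K) (lift_homeo K g) := by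
  intro z
  obtain ⟨r, hr, h⟩ := Metric.isOpen_iff.1 (line_closed hK).isOpen_compl z.1 z.2
  refine ⟨r / 2, by positivity, (Metric.closedBall_subset_ball (by linarith)).trans h,
    fun t p => ((1 - t) * p.1 + t * (g : ℝ ≃o ℝ) p.1, p.2), ?_, ?_, ?_, ?_⟩
  · have hg : Continuous fun x : ℝ => (g : ℝ ≃o ℝ) x := (g : ℝ ≃o ℝ).continuous
    have h1 : Continuous fun p : ℝ × (ℝ × ℝ) => (g : ℝ ≃o ℝ) p.2.1 :=
      hg.comp (continuous_fst.comp continuous_snd)
    have h2 : Continuous fun p : ℝ × (ℝ × ℝ) =>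
        (((1 - p.1) * p.2.1 + p.1 * (g : ℝ ≃o ℝ) p.2.1, p.2.2) : ℝ × ℝ) := by fun_prop
    exact h2.continuousOn
  · intro x _
    refine Prod.ext ?_ rfl
    show (1 - (0 : ℝ)) * x.1 + 0 * (g : ℝ ≃o ℝ) x.1 = x.1
    ring
  · intro x _
    rw [lift_homeo_apply]
    refine Prod.ext ?_ rfl
    show (1 - (1 : ℝ)) * x.1.1 + 1 * (g : ℝ ≃o ℝ) x.1.1 = (g : ℝ ≃o ℝ) x.1.1
    ring
  · intro t ht x _ y _ hxy
    have hxy' : (((1 - t) * x.1 + t * (g : ℝ ≃o ℝ) x.1, x.2) : ℝ × ℝ)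
        = ((1 - t) * y.1 + t * (g : ℝ ≃o ℝ) y.1, y.2) := hxy
    have h1 : (1 - t) * x.1 + t * (g : ℝ ≃o ℝ) x.1 = (1 - t) * y.1 + t * (g : ℝ ≃o ℝ) y.1 :=
      (Prod.mk.inj hxy').1
    have h2 : x.2 = y.2 := (Prod.mk.inj hxy').2
    have hmono : StrictMono fun u : ℝ => (1 - t) * u + t * (g : ℝ ≃o ℝ) u := by
      intro a b hab
      have hgab : (g : ℝ ≃o ℝ) a < (g : ℝ ≃o ℝ) b := (g : ℝ ≃o ℝ).strictMono hab
      have ht0 : 0 ≤ t := ht.1
      have ht1 : 0 ≤ 1 - t := by linarith [ht.2]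
      rcases eq_or_lt_of_le ht0 with h0 | h0
      · subst h0
        simpa using hab
      · have k1 : (1 - t) * a ≤ (1 - t) * b := mul_le_mul_of_nonneg_left hab.le ht1
        have k2 : t * (g : ℝ ≃o ℝ) a < t * (g : ℝ ≃o ℝ) b := mul_lt_mul_of_pos_left hgab h0
        show (1 - t) * a + t * (g : ℝ ≃o ℝ) a < (1 - t) * b + t * (g : ℝ ≃o ℝ) b
        linarith
    exact Prod.ext (hmono.injective h1) h2

theorem t_LIFT : S_LIFT := by
  intro K hK
  refine ⟨{ toFun := fun g => ⟨lift_homeo K g, lift_orPres K hK g⟩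
            map_one' := ?_
            map_mul' := ?_ }, fun g z => rfl⟩
  · refine Subtype.ext (Homeomorph.ext fun z => ?_)
    rfl
  · intro a b
    refine Subtype.ext (Homeomorph.ext fun z => ?_)
    rfl

end Pool.Agent.U596.QT
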