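import Mathlib
import Pool.Agent.U596.QT.Stm

/-! # Package NA: non-amenability from a ping-pong action (helper404) -/

set_option autoImplicit false

namespace Pool.Agent.U596.QT

open Set

private theorem na_equi {D H X : Type} [Group D] [Group H] [MulAction D X] [Nonempty X] (Θ : D →* H)
    (hker : ∀ g, Θ g = 1 → ∀ x : X, g • x = x) : ∃ F : H → X, ∀ g h, F (Θ g * h) = g • F h := by
  classical
  obtain ⟨x0⟩ := ‹Nonempty X›
  obtain ⟨K, hK⟩ : ∃ K : Subgroup H, K = Θ.range := ⟨_, rfl⟩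
  have hs : ∃ s : H → H, (∀ h, h * (s h)⁻¹ ∈ K) ∧ ∀ k ∈ K, ∀ h, s (k * h) = s h := by
    refine ⟨fun h => (Quotient.mk (QuotientGroup.rightRel K) h).out, fun h => ?_, fun k hk h => ?_⟩
    · have h1 := Quotient.mk_out (s := QuotientGroup.rightRel K) h
      exact QuotientGroup.rightRel_apply.1 h1
    · have h1 : Quotient.mk (QuotientGroup.rightRel K) (k * h) = Quotient.mk (QuotientGroup.rightRel K) h := by
        apply Quotient.sound
        apply QuotientGroup.rightRel_apply.2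
        have : h * (k * h)⁻¹ = k⁻¹ := by group
        rw [this]
        exact K.inv_mem hk
      simp only [h1]
  obtain ⟨s, hs1, hs2⟩ := hs
  have hd : ∀ h, ∃ d : D, Θ d = h * (s h)⁻¹ := by
    intro h
    have h1 := hs1 h
    rw [hK] at h1
    exact MonoidHom.mem_range.1 h1
  choose d hd using hd
  refine ⟨fun h => d h • x0, fun g h => ?_⟩
  have hg : Θ g ∈ K := by rw [hK]; exact MonoidHom.mem_range.2 ⟨g, rfl⟩
  have h1 : Θ ((g * d h)⁻¹ * d (Θ g * h)) = 1 := by
    rw [map_mul, map_inv, map_mul, hd, hd, hs2 _ hg]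
    group
  have h2 := hker _ h1 x0
  calc d (Θ g * h) • x0 = (g * d h) • ((g * d h)⁻¹ * d (Θ g * h)) • x0 := by
        rw [smul_smul, mul_inv_cancel_left]
    _ = g • d h • x0 := by rw [h2, mul_smul]

theorem t_NA : S_NA := by
  intro D H X _ _ _ _ Θ hker c r U hc hr1 hr2 hH
  obtain ⟨μ, h0, h1, hadd, hinv⟩ := hH
  obtain ⟨F, hF⟩ := na_equi (X := X) Θ hker
  have hν : ∀ (g : D) (A : Set X), μ (F ⁻¹' {x | g • x ∈ A}) = μ (F ⁻¹' A) := by
    intro g A
    rw [← hinv (Θ g) (F ⁻¹' {x | g • x ∈ A})]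
    congr 1
    ext h
    constructor
    · rintro ⟨h', hh', rfl⟩
      show F (Θ g * h') ∈ A
      rw [hF]
      exact hh'
    · intro hh
      refine ⟨(Θ g)⁻¹ * h, ?_, by simp⟩
      show g • F ((Θ g)⁻¹ * h) ∈ A
      rw [← hF, mul_inv_cancel_left]
      exact hh
  have hhalf : μ (F ⁻¹' U) = 1 / 2 := by
    have e1 : F ⁻¹' {x | c • x ∈ U} = F ⁻¹' Uᶜ := by
      ext h
      exact hc (F h)
    have e2 := hν c U
    rw [e1] at e2
    have e3 := hadd (F ⁻¹' U) (F ⁻¹' Uᶜ) (by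
      rw [preimage_compl]
      exact disjoint_compl_right)
    rw [preimage_compl, union_compl_self, h1, ← preimage_compl, e2] at e3
    linarith
  have hd1 : Disjoint (F ⁻¹' U) (F ⁻¹' {x | r • x ∈ U}) := by
    rw [Set.disjoint_left]
    intro h hh hh'
    exact hr1 (F h) hh hh'
  have hd2 : Disjoint (F ⁻¹' U ∪ F ⁻¹' {x | r • x ∈ U}) (F ⁻¹' {x | r • x ∈ {y | r • y ∈ U}}) := by
    rw [Set.disjoint_left]
    rintro h (hh | hh) hh'
    · exact hr2 (F h) hh hh'
    · exact hr1 (r • F h) hh hh'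
  have e4 := hadd _ _ hd1
  have e5 := hadd _ _ hd2
  rw [hν r {y | r • y ∈ U}, hν r U, e4, hν r U, hhalf] at e5
  have hle : ∀ A : Set H, μ A ≤ 1 := by
    intro A
    have e6 := hadd A Aᶜ disjoint_compl_right
    rw [union_compl_self, h1] at e6
    linarith [h0 Aᶜ]
  have e7 := hle (F ⁻¹' U ∪ F ⁻¹' {x | r • x ∈ U} ∪ F ⁻¹' {x | r • x ∈ {y | r • y ∈ U}})
  rw [e5] at e7
  linarith

end Pool.Agent.U596.QT
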