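import Mathlib
import Pool.Agent.U596.QT.Stm

set_option autoImplicit false

namespace Pool.Agent.U596.QT

open Set Topology

private theorem per_mem {K : Set ℝ} {x : ℝ} : x ∈ per K ↔ ∃ n : ℤ, x - 2 * n ∈ K := Iff.rfl

private theorem per_closed {K : Set ℝ} (hK : IsClosed K) (hb : ∀ x ∈ K, |x| ≤ 1) : IsClosed (per K) := by
  have h : per K = ⋃ n : ℤ, {x : ℝ | x - 2 * (n : ℝ) ∈ K} := by
    ext x
    simp only [per_mem, mem_iUnion, mem_setOf_eq]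
  rw [h]
  refine LocallyFinite.isClosed_iUnion ?_ ?_
  · intro x
    refine ⟨Metric.ball x 1, Metric.ball_mem_nhds x one_pos, ?_⟩
    refine (Set.finite_Icc ⌊(x - 2) / 2⌋ ⌈(x + 2) / 2⌉).subset ?_
    rintro n ⟨y, hy, hyx⟩
    have h1 := abs_le.1 (hb _ hy)
    rw [Metric.mem_ball, Real.dist_eq] at hyx
    have h2 := abs_lt.1 hyx
    constructor
    · have : ((⌊(x - 2) / 2⌋ : ℤ) : ℝ) ≤ (n : ℝ) := (Int.floor_le _).trans (by linarith [h1.2, h2.1])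
      exact_mod_cast this
    · have : (n : ℝ) ≤ ((⌈(x + 2) / 2⌉ : ℤ) : ℝ) := le_trans (by linarith [h1.1, h2.2]) (Int.le_ceil _)
      exact_mod_cast this
  · intro n
    exact hK.preimage (by fun_prop : Continuous fun x : ℝ => x - 2 * (n : ℝ))

theorem t_PER : S_PER := by
  intro K hK hb h1 hm1 hthin hiso
  refine ⟨per_closed hK hb, ⟨fun L => ?_, fun L => ?_⟩, fun a b hab => ?_, ?_⟩
  · refine ⟨2 * (⌈L⌉₊ : ℝ) + 1, ⟨(⌈L⌉₊ : ℤ), ?_⟩, ?_⟩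
    · have : 2 * (⌈L⌉₊ : ℝ) + 1 - 2 * (((⌈L⌉₊ : ℤ)) : ℝ) = 1 := by push_cast; ring
      rw [this]
      exact h1
    · have h := Nat.le_ceil L
      have h' : (0 : ℝ) ≤ (⌈L⌉₊ : ℝ) := Nat.cast_nonneg _
      linarith
  · refine ⟨-(2 * (⌈-L⌉₊ : ℝ) + 1), ⟨-(⌈-L⌉₊ : ℤ), ?_⟩, ?_⟩
    · have : -(2 * (⌈-L⌉₊ : ℝ) + 1) - 2 * (((-(⌈-L⌉₊ : ℤ) : ℤ)) : ℝ) = -1 := by push_cast; ring
      rw [this]
      exact hm1
    · have h := Nat.le_ceil (-L)
      have h' : (0 : ℝ) ≤ (⌈-L⌉₊ : ℝ) := Nat.cast_nonneg _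
      linarith
  · set n : ℤ := ⌊(a + 1) / 2⌋ with hn
    have e1 : (n : ℝ) ≤ (a + 1) / 2 := Int.floor_le _
    have e2 : (a + 1) / 2 < (n : ℝ) + 1 := Int.lt_floor_add_one _
    have e3 : a < min b (2 * (n : ℝ) + 1) := lt_min hab (by linarith)
    obtain ⟨y, hy1, hy2, hy3⟩ := hthin (a - 2 * (n : ℝ)) (min b (2 * (n : ℝ) + 1) - 2 * (n : ℝ)) (by linarith)
    have e4 : y + 2 * (n : ℝ) < min b (2 * (n : ℝ) + 1) := by linarith
    refine ⟨y + 2 * (n : ℝ), by linarith, lt_of_lt_of_le e4 (min_le_left _ _), ?_⟩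
    rintro ⟨m, hm⟩
    have h2 := abs_le.1 (hb _ hm)
    have h3 : y + 2 * (n : ℝ) < 2 * (n : ℝ) + 1 := lt_of_lt_of_le e4 (min_le_right _ _)
    have h4 : (m : ℝ) < (n : ℝ) + 1 := by linarith [h2.1]
    have h5 : (n : ℝ) < (m : ℝ) + 1 := by linarith [h2.2]
    have h6 : m < n + 1 := by exact_mod_cast h4
    have h7 : n < m + 1 := by exact_mod_cast h5
    have h8 : m = n := by omega
    rw [h8] at hm
    apply hy3
    have : y = y + 2 * (n : ℝ) - 2 * (n : ℝ) := by ring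
    rw [this]
    exact hm
  · rintro x ⟨n, hn⟩ ε hε
    obtain ⟨y, hy, hyx, hlt⟩ := hiso _ hn ε hε
    refine ⟨y + 2 * (n : ℝ), ⟨n, ?_⟩, ?_, ?_⟩
    · have : y + 2 * (n : ℝ) - 2 * (n : ℝ) = y := by ring
      rw [this]
      exact hy
    · intro h
      apply hyx
      rw [← h]; ring
    · have : y + 2 * (n : ℝ) - x = y - (x - 2 * (n : ℝ)) := by ring
      rw [this]
      exact hlt

end Pool.Agent.U596.QT
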