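import Mathlib
import Pool.Agent.U596.QT.Stm

/-! Project QT, package QM: homogeneous quasimorphisms of a group with commuting conjugates are homomorphisms. -/

set_option autoImplicit false

namespace Pool.Agent.U596.QT

theorem qm_zero {x C : ℝ} (h : ∀ n : ℕ, |(n : ℝ) * x| ≤ C) : x = 0 := by
  by_contra hx
  have hpos : 0 < |x| := abs_pos.2 hx
  obtain ⟨n, hn⟩ := exists_nat_gt (C / |x|)
  have h1 := h n
  rw [abs_mul, Nat.abs_cast] at h1
  rw [div_lt_iff₀ hpos] at hn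
  linarith

section

variable {G : Type} [Group G] {φ : G → ℝ} {D : ℝ}

theorem qm_pow (hn : ∀ (g : G) (n : ℤ), φ (g ^ n) = n * φ g) (g : G) (n : ℕ) : φ (g ^ n) = n * φ g := by
  have := hn g n
  rw [zpow_natCast] at this
  rw [this, Int.cast_natCast]

theorem qm_inv (hn : ∀ (g : G) (n : ℤ), φ (g ^ n) = n * φ g) (g : G) : φ g⁻¹ = - φ g := by
  have := hn g (-1)
  rw [zpow_neg_one] at this
  rw [this]
  push_cast
  ring

theorem qm_conj (hD : ∀ g h, |φ (g * h) - φ g - φ h| ≤ D) (hn : ∀ (g : G) (n : ℤ), φ (g ^ n) = n * φ g)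
    (g h : G) : φ (g * h * g⁻¹) = φ h := by
  have key : φ (g * h * g⁻¹) - φ h = 0 := by
    apply qm_zero (C := 2 * D)
    intro n
    have h1 := hD (g * h ^ n) g⁻¹
    have h2 := hD g (h ^ n)
    rw [← conj_pow, qm_pow hn, qm_inv hn] at h1
    rw [qm_pow hn] at h2
    have h3 : (n : ℝ) * (φ (g * h * g⁻¹) - φ h) =
        ((n : ℝ) * φ (g * h * g⁻¹) - φ (g * h ^ n) - -φ g) + (φ (g * h ^ n) - φ g - n * φ h) := by ring
    rw [h3]
    refine (abs_add_le _ _).trans ?_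
    linarith
  linarith

theorem qm_comm (hD : ∀ g h, |φ (g * h) - φ g - φ h| ≤ D) (hn : ∀ (g : G) (n : ℤ), φ (g ^ n) = n * φ g)
    {g h : G} (hc : Commute g h) : φ (g * h) = φ g + φ h := by
  have key : φ (g * h) - φ g - φ h = 0 := by
    apply qm_zero (C := D)
    intro n
    have h1 := hD (g ^ n) (h ^ n)
    rw [← hc.mul_pow, qm_pow hn, qm_pow hn, qm_pow hn] at h1
    have h3 : (n : ℝ) * (φ (g * h) - φ g - φ h) = n * φ (g * h) - n * φ g - n * φ h := by ring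
    rw [h3]
    exact h1
  linarith

/-- the conjugates -/
def qm_c (τ : G) (m : ℤ) (a : G) (j : ℕ) : G := τ ^ (m * j) * a * (τ ^ (m * j))⁻¹

/-- the products of the conjugates -/
def qm_P (τ : G) (m : ℤ) (a : G) : ℕ → G
  | 0 => 1
  | n + 1 => qm_P τ m a n * qm_c τ m a n

theorem qm_shift (τ : G) (m : ℤ) (a : G) (i j : ℕ) :
    qm_c τ m a (i + j) = τ ^ (m * i) * qm_c τ m a j * (τ ^ (m * i))⁻¹ := by
  unfold qm_c
  have : τ ^ (m * ((i + j : ℕ) : ℤ)) = τ ^ (m * i) * τ ^ (m * j) := by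
    rw [← zpow_add]
    congr 1
    push_cast
    ring
  rw [this]
  group

theorem qm_cc {τ : G} {m : ℤ} {a b : G} (h : ∀ j : ℕ, 1 ≤ j → Commute (qm_c τ m a j) b) {i n : ℕ} (hin : i < n) :
    Commute (qm_c τ m a n) (qm_c τ m b i) := by
  obtain ⟨j, rfl⟩ := Nat.exists_eq_add_of_lt hin
  have h1 := h (j + 1) (by omega)
  have h2 : qm_c τ m a (i + j + 1) = τ ^ (m * i) * qm_c τ m a (j + 1) * (τ ^ (m * i))⁻¹ := by
    rw [add_assoc, qm_shift]
  rw [h2]
  show Commute (τ ^ (m * i) * qm_c τ m a (j + 1) * (τ ^ (m * i))⁻¹) (τ ^ (m * i) * b * (τ ^ (m * i))⁻¹)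
  exact (Commute.conj_iff (τ ^ (m * (i : ℤ)))).2 h1

theorem qm_cP {τ : G} {m : ℤ} {a b : G} (h : ∀ j : ℕ, 1 ≤ j → Commute (qm_c τ m a j) b) (n : ℕ) :
    ∀ k ≤ n, Commute (qm_c τ m a n) (qm_P τ m b k) := by
  intro k
  induction k with
  | zero => intro _; exact Commute.one_right _
  | succ k ih =>
    intro hk
    exact (ih (by omega)).mul_right (qm_cc h (by omega))

theorem qm_phiP (hD : ∀ g h, |φ (g * h) - φ g - φ h| ≤ D) (hn : ∀ (g : G) (n : ℤ), φ (g ^ n) = n * φ g)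
    {τ : G} {m : ℤ} {a : G} (h : ∀ j : ℕ, 1 ≤ j → Commute (qm_c τ m a j) a) (n : ℕ) :
    φ (qm_P τ m a n) = n * φ a := by
  induction n with
  | zero =>
    have := hn 1 0
    simp only [zpow_zero, Int.cast_zero, zero_mul] at this
    simp [qm_P, this]
  | succ n ih =>
    show φ (qm_P τ m a n * qm_c τ m a n) = _
    rw [qm_comm hD hn (qm_cP h n n le_rfl).symm, ih]
    unfold qm_c
    rw [qm_conj hD hn]
    push_cast
    ring

theorem qm_mulc (τ : G) (m : ℤ) (a b : G) (n : ℕ) : qm_c τ m (a * b) n = qm_c τ m a n * qm_c τ m b n := by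
  unfold qm_c
  group

theorem qm_mulP {τ : G} {m : ℤ} {a b : G} (h : ∀ j : ℕ, 1 ≤ j → Commute (qm_c τ m a j) b) (n : ℕ) :
    qm_P τ m (a * b) n = qm_P τ m a n * qm_P τ m b n := by
  induction n with
  | zero => simp [qm_P]
  | succ n ih =>
    show qm_P τ m (a * b) n * qm_c τ m (a * b) n = (qm_P τ m a n * qm_c τ m a n) * (qm_P τ m b n * qm_c τ m b n)
    rw [ih, qm_mulc]
    have h1 := (qm_cP h n n le_rfl).eq
    calc qm_P τ m a n * qm_P τ m b n * (qm_c τ m a n * qm_c τ m b n)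
        = qm_P τ m a n * (qm_P τ m b n * qm_c τ m a n) * qm_c τ m b n := by group
      _ = qm_P τ m a n * (qm_c τ m a n * qm_P τ m b n) * qm_c τ m b n := by rw [h1]
      _ = _ := by group

theorem qm_add (hD : ∀ g h, |φ (g * h) - φ g - φ h| ≤ D) (hn : ∀ (g : G) (n : ℤ), φ (g ^ n) = n * φ g)
    {τ : G} {m : ℤ} {a b : G} (h : ∀ j : ℕ, 1 ≤ j →
    Commute (τ ^ (m * j) * a * (τ ^ (m * j))⁻¹) a ∧ Commute (τ ^ (m * j) * a * (τ ^ (m * j))⁻¹) b ∧
    Commute (τ ^ (m * j) * b * (τ ^ (m * j))⁻¹) a ∧ Commute (τ ^ (m * j) * b * (τ ^ (m * j))⁻¹) b) :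
    φ (a * b) = φ a + φ b := by
  have haa : ∀ j : ℕ, 1 ≤ j → Commute (qm_c τ m a j) a := fun j hj => (h j hj).1
  have hab : ∀ j : ℕ, 1 ≤ j → Commute (qm_c τ m a j) b := fun j hj => (h j hj).2.1
  have hba : ∀ j : ℕ, 1 ≤ j → Commute (qm_c τ m b j) a := fun j hj => (h j hj).2.2.1
  have hbb : ∀ j : ℕ, 1 ≤ j → Commute (qm_c τ m b j) b := fun j hj => (h j hj).2.2.2
  have hpp : ∀ j : ℕ, 1 ≤ j → Commute (qm_c τ m (a * b) j) (a * b) := by
    intro j hj
    rw [qm_mulc]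
    exact ((haa j hj).mul_right (hab j hj)).mul_left ((hba j hj).mul_right (hbb j hj))
  have key : φ (a * b) - φ a - φ b = 0 := by
    apply qm_zero (C := D)
    intro n
    have h1 := hD (qm_P τ m a n) (qm_P τ m b n)
    rw [← qm_mulP hab, qm_phiP hD hn haa, qm_phiP hD hn hbb, qm_phiP hD hn hpp] at h1
    have h3 : (n : ℝ) * (φ (a * b) - φ a - φ b) = n * φ (a * b) - n * φ a - n * φ b := by ring
    rw [h3]
    exact h1
  linarith

end

theorem t_QM : S_QM := by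
  intro G _ deg τ hτ hcom φ hφ
  obtain ⟨⟨D, hD⟩, hn⟩ := hφ
  have hker : ∀ a b : G, deg a = 1 → deg b = 1 → φ (a * b) = φ a + φ b := by
    intro a b ha hb
    obtain ⟨m, hm⟩ := hcom a b ha hb
    exact qm_add hD hn hm
  let k : G → ℤ := fun g => Multiplicative.toAdd (deg g)
  have hk : ∀ g h, k (g * h) = k g + k h := by
    intro g h
    show Multiplicative.toAdd (deg (g * h)) = _
    rw [map_mul]
    rfl
  have hdeg : ∀ g, deg (g * τ ^ (-k g)) = 1 := by
    intro g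
    rw [map_mul, map_zpow, hτ]
    apply Multiplicative.toAdd.injective
    rw [toAdd_mul, toAdd_zpow, toAdd_ofAdd, toAdd_one]
    show k g + (-k g) • (1 : ℤ) = 0
    simp
  let Ψ : G → ℝ := fun g => φ (g * τ ^ (-k g))
  have hΨ : ∀ g h, Ψ (g * h) = Ψ g + Ψ h := by
    intro g h
    show φ (g * h * τ ^ (-k (g * h))) = φ (g * τ ^ (-k g)) + φ (h * τ ^ (-k h))
    have h1 : g * h * τ ^ (-k (g * h)) = (g * τ ^ (-k g)) * (τ ^ (k g) * (h * τ ^ (-k h)) * (τ ^ (k g))⁻¹) := by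
      rw [hk]
      have : τ ^ (-(k g + k h)) = τ ^ (-k h) * (τ ^ (k g))⁻¹ := by
        rw [← zpow_neg, ← zpow_add]
        congr 1
        ring
      rw [this, zpow_neg τ (k g)]
      group
    rw [h1, hker _ _ (hdeg g), qm_conj hD hn]
    rw [map_mul, map_mul, hdeg h, mul_one, map_inv, mul_inv_cancel]
  have hΨ1 : Ψ 1 = 0 := by
    have := hΨ 1 1
    rw [mul_one] at this
    linarith
  have hΨn : ∀ (g : G) (n : ℕ), Ψ (g ^ n) = n * Ψ g := by
    intro g n
    induction n with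
    | zero => simp [hΨ1]
    | succ n ih =>
      rw [pow_succ, hΨ, ih]
      push_cast
      ring
  have hkn : ∀ (g : G) (n : ℕ), (k (g ^ n) : ℝ) = n * k g := by
    intro g n
    have : k (g ^ n) = n * k g := by
      show Multiplicative.toAdd (deg (g ^ n)) = _
      rw [map_pow, toAdd_pow]
      simp [k]
    rw [this]
    push_cast
    ring
  have hb : ∀ g, |φ g - φ τ * k g - Ψ g| ≤ D := by
    intro g
    have h1 := hD g (τ ^ (-k g))
    rw [hn τ (-k g)] at h1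
    rw [abs_sub_comm]
    have h2 : Ψ g - (φ g - φ τ * k g) = φ (g * τ ^ (-k g)) - φ g - ((-k g : ℤ) : ℝ) * φ τ := by
      show φ (g * τ ^ (-k g)) - (φ g - φ τ * k g) = _
      push_cast
      ring
    rw [h2]
    exact h1
  have heq : ∀ g, φ g = φ τ * k g + Ψ g := by
    intro g
    have key : φ g - φ τ * k g - Ψ g = 0 := by
      apply qm_zero (C := D)
      intro n
      have h1 := hb (g ^ n)
      rw [qm_pow hn, hΨn, hkn] at h1
      have h3 : (n : ℝ) * (φ g - φ τ * k g - Ψ g) = n * φ g - φ τ * (n * k g) - n * Ψ g := by ring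
      rw [h3]
      exact h1
    linarith
  intro g h
  rw [heq (g * h), heq g, heq h, hΨ, hk]
  push_cast
  ring

end Pool.Agent.U596.QT
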