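import Mathlib
import Pool.Agent.U596.QT.Stm

/-! Project QT (helper596), package W (helper979): the group of the increasing bijections of the line which
are translations near infinity. -/

set_option autoImplicit false

namespace Pool.Agent.U596.QT

open Set Topology

/-- `g` is the translation by `2 k` near infinity -/
def w_Deg (g : ℝ ≃o ℝ) (k : ℤ) : Prop := ∃ L : ℝ, ∀ x : ℝ, L ≤ |x| → g x = x + 2 * k

theorem w_deg_unique {g : ℝ ≃o ℝ} {k l : ℤ} (h : w_Deg g k) (h' : w_Deg g l) : k = l := by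
  obtain ⟨L, hL⟩ := h
  obtain ⟨M, hM⟩ := h'
  have h1 : L ≤ |max (max L M) 0| := by
    rw [abs_of_nonneg (le_max_right _ _)]
    exact (le_max_left _ _).trans (le_max_left _ _)
  have h2 : M ≤ |max (max L M) 0| := by
    rw [abs_of_nonneg (le_max_right _ _)]
    exact (le_max_right _ _).trans (le_max_left _ _)
  have h3 := hL _ h1
  rw [hM _ h2] at h3
  have h4 : (k : ℝ) = l := by linarith
  exact_mod_cast h4

theorem w_deg_one : w_Deg 1 0 := ⟨0, fun x _ => by simp⟩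

theorem w_deg_mul {g h : ℝ ≃o ℝ} {k l : ℤ} (hg : w_Deg g k) (hh : w_Deg h l) : w_Deg (g * h) (k + l) := by
  obtain ⟨L, hL⟩ := hg
  obtain ⟨M, hM⟩ := hh
  refine ⟨max M (L + |2 * (l : ℝ)|), fun x hx => ?_⟩
  have h1 : M ≤ |x| := (le_max_left _ _).trans hx
  have h2 : L + |2 * (l : ℝ)| ≤ |x| := (le_max_right _ _).trans hx
  have h3 : L ≤ |x + 2 * l| := by
    have h4 : |x| ≤ |x + 2 * l| + |2 * (l : ℝ)| := by
      have := abs_sub (x + 2 * l) (2 * (l : ℝ))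
      rwa [add_sub_cancel_right] at this
    linarith
  show g (h x) = _
  rw [hM x h1, hL _ h3]
  push_cast
  ring

theorem w_deg_inv {g : ℝ ≃o ℝ} {k : ℤ} (hg : w_Deg g k) : w_Deg g⁻¹ (-k) := by
  obtain ⟨L, hL⟩ := hg
  refine ⟨L + |2 * (k : ℝ)|, fun x hx => ?_⟩
  have h3 : L ≤ |x - 2 * k| := by
    have h4 : |x| ≤ |x - 2 * k| + |2 * (k : ℝ)| := by
      have := abs_add_le (x - 2 * k) (2 * (k : ℝ))
      rwa [sub_add_cancel] at this
    linarith
  have h4 := hL _ h3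
  rw [sub_add_cancel] at h4
  have h5 : (g⁻¹ : ℝ ≃o ℝ) x = x - 2 * k := by
    show g.symm x = _
    rw [OrderIso.symm_apply_eq]
    exact h4.symm
  rw [h5]
  push_cast
  ring

/-- the translation by two -/
def w_tau : ℝ ≃o ℝ := OrderIso.addRight 2

theorem w_tau_apply (x : ℝ) : w_tau x = x + 2 := rfl

theorem w_tau_inv (x : ℝ) : (w_tau⁻¹ : ℝ ≃o ℝ) x = x - 2 := by
  show w_tau.symm x = _
  rw [OrderIso.symm_apply_eq, w_tau_apply]
  ring

theorem w_tau_pow (n : ℤ) : ∀ x : ℝ, (w_tau ^ n : ℝ ≃o ℝ) x = x + 2 * n := by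
  induction n using Int.induction_on with
  | zero => intro x; simp
  | succ n ih =>
    intro x
    rw [zpow_add_one]
    show (w_tau ^ (n : ℤ) : ℝ ≃o ℝ) (w_tau x) = _
    rw [ih, w_tau_apply]
    push_cast
    ring
  | pred n ih =>
    intro x
    rw [zpow_sub_one]
    show (w_tau ^ (-(n : ℤ)) : ℝ ≃o ℝ) ((w_tau⁻¹ : ℝ ≃o ℝ) x) = _
    rw [ih, w_tau_inv]
    push_cast
    ring

theorem w_deg_tau : w_Deg w_tau 1 := ⟨0, fun x _ => by rw [w_tau_apply]; simp⟩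

/-- increasing bijections with disjoint supports commute -/
theorem w_comm {f g : ℝ ≃o ℝ} {L c : ℝ} (hL : 0 < L) (hc : 2 * L ≤ c)
    (hf : ∀ x : ℝ, L ≤ |x| → f x = x) (hg : ∀ x : ℝ, L ≤ |x - c| → g x = x) : f * g = g * f := by
  have fL : f L = L := hf L (by rw [abs_of_pos hL])
  have fL' : f (-L) = -L := hf (-L) (by rw [abs_neg, abs_of_pos hL])
  have gL : g (c + L) = c + L := hg _ (by rw [add_sub_cancel_left, abs_of_pos hL])
  have gL' : g (c - L) = c - L := hg _ (by rw [sub_sub_cancel_left, abs_neg, abs_of_pos hL])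
  ext x
  show f (g x) = g (f x)
  rcases lt_or_ge (|x|) L with h | h
  · obtain ⟨h1, h2⟩ := abs_lt.1 h
    have k1 : f x < L := by rw [← fL]; exact f.strictMono h2
    have k2 : -L < f x := by rw [← fL']; exact f.strictMono h1
    rw [hg x (by rw [le_abs]; right; linarith), hg (f x) (by rw [le_abs]; right; linarith)]
  · rw [hf x h]
    rcases lt_or_ge (|x - c|) L with h' | h'
    · obtain ⟨h1, h2⟩ := abs_lt.1 h'
      have k1 : g x < c + L := by rw [← gL]; exact g.strictMono (by linarith)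
      have k2 : c - L < g x := by rw [← gL']; exact g.strictMono (by linarith)
      exact hf _ (by rw [le_abs]; left; linarith)
    · rw [hg x h', hf x h]

/-- the conjugate of an element with bounded support -/
theorem w_conj {a : ℝ ≃o ℝ} {L : ℝ} (ha : ∀ x : ℝ, L ≤ |x| → a x = x) (n : ℤ) :
    ∀ x : ℝ, L ≤ |x - 2 * n| → (w_tau ^ n * a * (w_tau ^ n)⁻¹ : ℝ ≃o ℝ) x = x := by
  intro x hx
  show (w_tau ^ n : ℝ ≃o ℝ) (a (((w_tau ^ n)⁻¹ : ℝ ≃o ℝ) x)) = x
  have h : ((w_tau ^ n)⁻¹ : ℝ ≃o ℝ) x = x - 2 * n := by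
    rw [← zpow_neg, w_tau_pow]
    push_cast
    ring
  rw [h, ha _ hx, w_tau_pow]
  ring

theorem t_W : S_W := by
  intro K hK
  let W : Subgroup (ℝ ≃o ℝ) :=
    { carrier := {g | g ∈ Stab K ∧ ∃ k : ℤ, w_Deg g k}
      one_mem' := ⟨(Stab K).one_mem, 0, w_deg_one⟩
      mul_mem' := fun {a b} ha hb => ⟨(Stab K).mul_mem ha.1 hb.1, by
        obtain ⟨-, k, hk⟩ := ha
        obtain ⟨-, l, hl⟩ := hb
        exact ⟨k + l, w_deg_mul hk hl⟩⟩
      inv_mem' := fun {a} ha => ⟨(Stab K).inv_mem ha.1, by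
        obtain ⟨-, k, hk⟩ := ha
        exact ⟨-k, w_deg_inv hk⟩⟩ }
  have hW : ∀ g, g ∈ W ↔ g ∈ Stab K ∧ ∃ k : ℤ, w_Deg g k := fun g => Iff.rfl
  have hd : ∀ g : W, ∃ k : ℤ, w_Deg (g : ℝ ≃o ℝ) k := fun g => g.2.2
  choose dg hdg using hd
  let deg : W →* Multiplicative ℤ := MonoidHom.mk' (fun g => Multiplicative.ofAdd (dg g)) (by
    intro g h
    rw [← ofAdd_add]
    congr 1
    exact w_deg_unique (hdg (g * h)) (w_deg_mul (hdg g) (hdg h)))
  have hdeg : ∀ g : W, deg g = Multiplicative.ofAdd (dg g) := fun g => rfl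
  have htS : w_tau ∈ Stab K := fun x => hK x
  refine ⟨W, fun g hg => hg.1, ?_, deg, ⟨w_tau, htS, 1, w_deg_tau⟩, ?_, ?_⟩
  · rintro g hg ⟨L, hL⟩
    exact ⟨hg, 0, L, fun x hx => by rw [hL x hx]; simp⟩
  · rw [hdeg]
    congr 1
    exact w_deg_unique (hdg _) w_deg_tau
  · intro a b ha hb
    have key : ∀ c : W, deg c = 1 → ∃ L : ℝ, ∀ x : ℝ, L ≤ |x| → (c : ℝ ≃o ℝ) x = x := by
      intro c hc
      rw [hdeg] at hc
      have h0 : dg c = 0 := by
        have := congrArg Multiplicative.toAdd hc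
        simpa using this
      obtain ⟨L, hL⟩ := hdg c
      refine ⟨L, fun x hx => ?_⟩
      rw [hL x hx, h0]
      simp
    obtain ⟨La, hLa⟩ := key a ha
    obtain ⟨Lb, hLb⟩ := key b hb
    obtain ⟨L, hL⟩ : ∃ L, L = max (max La Lb) 1 := ⟨_, rfl⟩
    have hL1 : 1 ≤ L := by rw [hL]; exact le_max_right _ _
    have hLaL : La ≤ L := by rw [hL]; exact (le_max_left _ _).trans (le_max_left _ _)
    have hLbL : Lb ≤ L := by rw [hL]; exact (le_max_right _ _).trans (le_max_left _ _)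
    have ha' : ∀ x : ℝ, L ≤ |x| → (a : ℝ ≃o ℝ) x = x := fun x hx => hLa x (hLaL.trans hx)
    have hb' : ∀ x : ℝ, L ≤ |x| → (b : ℝ ≃o ℝ) x = x := fun x hx => hLb x (hLbL.trans hx)
    obtain ⟨m, hm⟩ : ∃ m : ℤ, L ≤ m := ⟨⌈L⌉, Int.le_ceil L⟩
    refine ⟨m, fun j hj => ?_⟩
    have hc : 2 * L ≤ 2 * ((m * j : ℤ) : ℝ) := by
      have h1 : (1 : ℝ) ≤ j := by exact_mod_cast hj
      have h2 : (0 : ℝ) ≤ m := by linarith
      push_cast
      nlinarith
    have main : ∀ c d : W, (∀ x : ℝ, L ≤ |x| → (c : ℝ ≃o ℝ) x = x) →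
        (∀ x : ℝ, L ≤ |x| → (d : ℝ ≃o ℝ) x = x) →
        Commute ((⟨w_tau, htS, 1, w_deg_tau⟩ : W) ^ (m * (j : ℤ)) * c *
          ((⟨w_tau, htS, 1, w_deg_tau⟩ : W) ^ (m * (j : ℤ)))⁻¹) d := by
      intro c d hcc hdd
      apply Subtype.ext
      have h := w_comm (by linarith) hc hdd (w_conj hcc (m * (j : ℤ)))
      exact h.symm
    exact ⟨main a a ha' ha', main a b ha' hb', main b a hb' ha', main b b hb' hb'⟩

end Pool.Agent.U596.QT
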