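import Mathlib
import Pool.Agent.U596.QT.Stm

/-! Project QT (helper596), package Z (helper653). -/

set_option autoImplicit false

namespace Pool.Agent.U596.QT

open Set Topology

theorem z_compl : Z0ᶜ = ⋃ k : ℤ, Ioo (2 * (k : ℝ) + 3 / 4) (2 * (k : ℝ) + 9 / 4) := by
  ext x
  rw [mem_compl_iff, mem_iUnion]
  constructor
  · intro h
    have h1 := Int.floor_le ((x - 1 / 4) / 2)
    have h2 := Int.lt_floor_add_one ((x - 1 / 4) / 2)
    refine ⟨⌊(x - 1 / 4) / 2⌋, ?_, by linarith⟩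
    by_contra h3
    push Not at h3
    exact h ⟨⌊(x - 1 / 4) / 2⌋, by linarith, h3⟩
  · rintro ⟨k, h1, h2⟩ ⟨m, h3, h4⟩
    have h5 : (k : ℝ) < m := by linarith
    have h6 : (m : ℝ) < k + 1 := by linarith
    have h5' : k < m := by exact_mod_cast h5
    have h6' : m < k + 1 := by exact_mod_cast h6
    omega

theorem z_closed0 : IsClosed Z0 := by
  rw [← isOpen_compl_iff, z_compl]
  exact isOpen_iUnion fun k => isOpen_Ioo

theorem z_cont : Continuous fZ := by
  unfold fZ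
  fun_prop

theorem z_iter (n : ℕ) (x t : ℝ) : fZ^[n] (x + t) = fZ^[n] x + 5 ^ n * t := by
  induction n with
  | zero => simp
  | succ n ih =>
    rw [Function.iterate_succ_apply', Function.iterate_succ_apply', ih, pow_succ]
    unfold fZ
    ring

theorem z_per0 (m : ℤ) (x : ℝ) : x + 2 * m ∈ Z0 ↔ x ∈ Z0 := by
  constructor
  · rintro ⟨k, h1, h2⟩
    refine ⟨k - m, ?_, ?_⟩ <;> push_cast <;> linarith
  · rintro ⟨k, h1, h2⟩
    refine ⟨k + m, ?_, ?_⟩ <;> push_cast <;> linarith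

theorem z_per (m : ℤ) (x : ℝ) : x + 2 * m ∈ ZZ ↔ x ∈ ZZ := by
  have h : ∀ n : ℕ, fZ^[n] (x + 2 * m) ∈ Z0 ↔ fZ^[n] x ∈ Z0 := by
    intro n
    rw [z_iter]
    have e : fZ^[n] x + 5 ^ n * (2 * (m : ℝ)) = fZ^[n] x + 2 * ((5 ^ n * m : ℤ) : ℝ) := by
      push_cast
      ring
    rw [e]
    exact z_per0 _ _
  exact forall_congr' h

theorem z_rec (x : ℝ) : x ∈ ZZ ↔ x ∈ Z0 ∧ fZ x ∈ ZZ := by
  constructor
  · intro h
    refine ⟨h 0, fun n => ?_⟩
    have := h (n + 1)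
    rwa [Function.iterate_succ_apply] at this
  · rintro ⟨h0, h⟩ n
    cases n with
    | zero => exact h0
    | succ n =>
      rw [Function.iterate_succ_apply]
      exact h n

theorem z_quarter : (1 / 4 : ℝ) ∈ ZZ := by
  intro n
  have h : fZ (1 / 4) = 1 / 4 := by
    unfold fZ
    norm_num
  rw [Function.iterate_fixed h]
  exact ⟨0, by norm_num, by norm_num⟩

theorem z_unb : Unb ZZ := by
  constructor
  · intro L
    obtain ⟨k, hk⟩ := exists_int_gt L
    refine ⟨1 / 4 + 2 * (|k| : ℤ), (z_per _ _).2 z_quarter, ?_⟩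
    have h1 : (k : ℝ) ≤ ((|k| : ℤ) : ℝ) := by exact_mod_cast le_abs_self k
    have h2 : (0 : ℝ) ≤ ((|k| : ℤ) : ℝ) := by exact_mod_cast abs_nonneg k
    linarith
  · intro L
    obtain ⟨k, hk⟩ := exists_int_lt L
    refine ⟨1 / 4 + 2 * ((-|k| - 1 : ℤ)), (z_per _ _).2 z_quarter, ?_⟩
    have h1 : ((-|k| : ℤ) : ℝ) ≤ k := by exact_mod_cast neg_abs_le k
    have h2 : (0 : ℝ) ≤ ((|k| : ℤ) : ℝ) := by exact_mod_cast abs_nonneg k
    push_cast at h1 h2 ⊢
    linarith

theorem z_thin : Thin ZZ := by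
  intro a b hab
  obtain ⟨n, hn⟩ := pow_unbounded_of_one_lt (3 / (b - a)) (show (1 : ℝ) < 5 by norm_num)
  have hpos : (0 : ℝ) < b - a := by linarith
  rw [div_lt_iff₀ hpos] at hn
  set A := fZ^[n] a with hA
  have h1 := Int.floor_le (A / 2)
  have h2 := Int.lt_floor_add_one (A / 2)
  set y : ℝ := 2 * (⌊A / 2⌋ : ℝ) + 3 with hy
  have h5 : (0 : ℝ) < 5 ^ n := by positivity
  refine ⟨a + (y - A) / 5 ^ n, ?_, ?_, ?_⟩
  · have : 0 < (y - A) / 5 ^ n := div_pos (by linarith) h5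
    linarith
  · have : (y - A) / 5 ^ n < b - a := by
      rw [div_lt_iff₀ h5]
      linarith
    linarith
  · intro h
    have h3 := h n
    rw [z_iter, mul_div_cancel₀ _ h5.ne', ← hA] at h3
    obtain ⟨m, h6, h7⟩ := h3
    have h8 : (2 * (m : ℝ)) < 2 * (⌊A / 2⌋ : ℝ) + 3 := by linarith
    have h9 : 2 * (⌊A / 2⌋ : ℝ) + 2 < 2 * (m : ℝ) := by linarith
    have h8' : 2 * m < 2 * ⌊A / 2⌋ + 3 := by exact_mod_cast h8
    have h9' : 2 * ⌊A / 2⌋ + 2 < 2 * m := by exact_mod_cast h9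
    omega

theorem z_near (n : ℕ) : ∀ x ∈ ZZ, ∃ (y : ℝ) (k : ℤ), y ∈ ZZ ∧ y ≠ x ∧ |y - x| ≤ (1 / 5) ^ n ∧
    2 * (k : ℝ) + 1 / 4 ≤ x ∧ x ≤ 2 * (k : ℝ) + 3 / 4 ∧
    2 * (k : ℝ) + 1 / 4 ≤ y ∧ y ≤ 2 * (k : ℝ) + 3 / 4 := by
  induction n with
  | zero =>
    intro x hx
    obtain ⟨⟨k, h1, h2⟩, hf⟩ := (z_rec x).1 hx
    obtain ⟨⟨m, h3, h4⟩, -⟩ := (z_rec _).1 hf
    have hfx : fZ x = 5 * x - 1 := rfl
    rw [hfx] at h3 h4
    have h5 : (10 * (k : ℝ)) - 1 < 2 * m := by linarith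
    have h6 : (2 * (m : ℝ)) < 10 * k + 3 := by linarith
    have h5' : 10 * k - 1 < 2 * m := by exact_mod_cast h5
    have h6' : 2 * m < 10 * k + 3 := by exact_mod_cast h6
    have h7 : m = 5 * k ∨ m = 5 * k + 1 := by omega
    rcases h7 with rfl | rfl
    · push_cast at h3 h4
      refine ⟨x + 2 / 5, k, ?_, ?_, ?_, h1, h2, by linarith, by linarith⟩
      · rw [z_rec]
        refine ⟨⟨k, by linarith, by linarith⟩, ?_⟩
        have e : fZ (x + 2 / 5) = fZ x + 2 * ((1 : ℤ) : ℝ) := by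
          unfold fZ
          push_cast
          ring
        rw [e, z_per]
        exact hf
      · intro h
        linarith
      · rw [pow_zero, add_sub_cancel_left, abs_of_nonneg (by norm_num)]
        norm_num
    · push_cast at h3 h4
      refine ⟨x - 2 / 5, k, ?_, ?_, ?_, h1, h2, by linarith, by linarith⟩
      · rw [z_rec]
        refine ⟨⟨k, by linarith, by linarith⟩, ?_⟩
        have e : fZ (x - 2 / 5) = fZ x + 2 * ((-1 : ℤ) : ℝ) := by
          unfold fZ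
          push_cast
          ring
        rw [e, z_per]
        exact hf
      · intro h
        linarith
      · rw [pow_zero, show x - 2 / 5 - x = -(2 / 5) by ring, abs_neg, abs_of_nonneg (by norm_num)]
        norm_num
  | succ n ih =>
    intro x hx
    obtain ⟨⟨k, h1, h2⟩, hf⟩ := (z_rec x).1 hx
    obtain ⟨y', m, hy, hne, hle, h3, h4, h5, h6⟩ := ih _ hf
    have hfx : fZ x = 5 * x - 1 := rfl
    rw [hfx] at h3 h4 hne hle
    have h7 : (10 * (k : ℝ)) - 1 < 2 * m := by linarith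
    have h8 : (2 * (m : ℝ)) < 10 * k + 3 := by linarith
    have h7' : 10 * k - 1 < 2 * m := by exact_mod_cast h7
    have h8' : 2 * m < 10 * k + 3 := by exact_mod_cast h8
    have h9 : 5 * k ≤ m := by omega
    have h10 : m ≤ 5 * k + 1 := by omega
    have h9' : 5 * (k : ℝ) ≤ m := by exact_mod_cast h9
    have h10' : (m : ℝ) ≤ 5 * k + 1 := by exact_mod_cast h10
    refine ⟨(y' + 1) / 5, k, ?_, ?_, ?_, h1, h2, by linarith, by linarith⟩
    · rw [z_rec]
      refine ⟨⟨k, by linarith, by linarith⟩, ?_⟩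
      have e : fZ ((y' + 1) / 5) = y' := by
        unfold fZ
        ring
      rw [e]
      exact hy
    · intro h
      apply hne
      linarith
    · have e : (y' + 1) / 5 - x = (1 / 5) * (y' - (5 * x - 1)) := by ring
      rw [e, abs_mul, abs_of_nonneg (by norm_num : (0 : ℝ) ≤ 1 / 5), pow_succ, mul_comm]
      exact mul_le_mul_of_nonneg_right hle (by norm_num)

theorem z_noIso : NoIso ZZ := by
  intro x hx ε hε
  obtain ⟨n, hn⟩ := exists_pow_lt_of_lt_one hε (show (1 / 5 : ℝ) < 1 by norm_num)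
  obtain ⟨y, k, hy, hne, hle, -⟩ := z_near n x hx
  exact ⟨y, hy, hne, lt_of_le_of_lt hle hn⟩

/-- Package Z -/
theorem t_Z : S_Z := by
  refine ⟨?_, fun x => ?_, z_rec, z_quarter, z_unb, z_thin, z_noIso⟩
  · have : ZZ = ⋂ n : ℕ, fZ^[n] ⁻¹' Z0 := by
      ext x
      simp only [ZZ, mem_iInter, mem_preimage]
      rfl
    rw [this]
    exact isClosed_iInter fun n => z_closed0.preimage (z_cont.iterate n)
  · have := z_per 1 x
    simpa using this

end Pool.Agent.U596.QT
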